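import Pool.Agent.HFinG.Loc

/-! Definitions for the statement: the homogeneous space `SU(4)/SU(2)S¹` as a submanifold. -/

namespace HX

open HFinG
open scoped Matrix ContDiff

/-- `(ℂ⁴)^⊗4`. -/
abbrev W4 := Fin 4 → Fin 4 → Fin 4 → Fin 4 → ℂ

/-- The tensor `u ⊗ u ⊗ u ⊗ v`. -/
def tens (u v : Fin 4 → ℂ) : W4 := fun i j k l => u i * u j * u k * v l

/-- The set of tensors `u ⊗ u ⊗ u ⊗ v` with `u, v ∈ ℂ⁴` orthonormal: the `SU(4)`-orbit of
`e₂ ⊗ e₂ ⊗ e₂ ⊗ e₃`.  As `zu ⊗ zu ⊗ zu ⊗ z⁻³v = u ⊗ u ⊗ u ⊗ v` for `|z| = 1`, this is the `11`-dimensional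
homogeneous space `SU(4)/SU(2)S¹`, where `SU(2)` acts on the first two coordinates and
`S¹ = {diag(z, z, z, z⁻³)}`. -/
def Space4 : Set W4 :=
  {t | ∃ u v : Fin 4 → ℂ, ∑ i, star (u i) * u i = 1 ∧ ∑ i, star (v i) * v i = 1 ∧
    ∑ i, star (u i) * v i = 0 ∧ t = tens u v}

/-- The action `g ⊗ g ⊗ g ⊗ g` of a matrix on `(ℂ⁴)^⊗4`. -/
def act4F (g : Matrix (Fin 4) (Fin 4) ℂ) (t : W4) : W4 := fun i j k l =>
  ∑ a, ∑ b, ∑ c, ∑ d, g i a * g j b * g k c * g l d * t a b c d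

/-- `act4F` as a continuous linear map. -/
noncomputable def act4 (g : Matrix (Fin 4) (Fin 4) ℂ) : W4 →L[ℝ] W4 :=
  LinearMap.toContinuousLinearMap
    { toFun := act4F g
      map_add' := by
        intro s t
        funext i j k l
        simp only [act4F, Pi.add_apply, mul_add, Finset.sum_add_distrib]
      map_smul' := by
        intro r t
        funext i j k l
        simp only [act4F, Pi.smul_apply, Complex.real_smul, RingHom.id_apply, Finset.mul_sum]
        refine Finset.sum_congr rfl fun a _ => Finset.sum_congr rfl fun b _ =>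
          Finset.sum_congr rfl fun c _ => Finset.sum_congr rfl fun d _ => ?_
        ring }

lemma act4_apply (g : Matrix (Fin 4) (Fin 4) ℂ) (t : W4) (i j k l : Fin 4) :
    act4 g t i j k l = ∑ a, ∑ b, ∑ c, ∑ d, g i a * g j b * g k c * g l d * t a b c d := rfl

/-- The metric `F` on the `dim V`-dimensional submanifold `Ms` of `W` is invariant under the linear
map `A` of `W` (which maps `Ms` to `Ms`): `F (A p) (A ẏ) = F p ẏ` for all tangent vectors `ẏ` at
`p ∈ Ms`. -/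
def InvariantUnder (V : Type*) [NormedAddCommGroup V] [NormedSpace ℝ V] {W : Type*}
    [NormedAddCommGroup W] [NormedSpace ℝ W] (Ms : Set W) (F : W → W → ℝ) (A : W → W) : Prop :=
  ∀ (U : Set V) (ψ : V → W), IsParam Ms U ψ → ∀ v ∈ U, ∀ y : V,
    F (A (ψ v)) (A (fderiv ℝ ψ v y)) = F (ψ v) (fderiv ℝ ψ v y)

/-- The metric `F` on the `dim V`-dimensional submanifold `Ms` of `W` is reversible:
`F p (-ẏ) = F p ẏ` for all tangent vectors `ẏ` at `p ∈ Ms`. -/
def ReversibleOn (V : Type*) [NormedAddCommGroup V] [NormedSpace ℝ V] {W : Type*}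
    [NormedAddCommGroup W] [NormedSpace ℝ W] (Ms : Set W) (F : W → W → ℝ) : Prop :=
  ∀ (U : Set V) (ψ : V → W), IsParam Ms U ψ → ∀ v ∈ U, ∀ y : V,
    F (ψ v) (-(fderiv ℝ ψ v y)) = F (ψ v) (fderiv ℝ ψ v y)

end HX
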