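import Pool.Agent.HX.RA

/-! MODULE RB (diff 2): the base point and its tangent space.

`u = e₂`, `v = e₃` (`Pi.single 2 1`, `Pi.single 3 1`), `w0 = tens u v`.
`iotaX x *ᵥ e₂ = (x11, x21, -2ia, -w̄)`, `iotaX x *ᵥ e₃ = (x12, x22, w, 0)`, `hatX A *ᵥ e₂ = i t e₂`,
`hatX A *ᵥ e₃ = -3 i t e₃`.  With `act4_fderiv`: component `(2,2,2,3)` of `tau x` is `3(-2ia) = -6ia`,
component `(0,2,2,3)` is `x11`, `(1,2,2,3)` is `x21`, `(2,2,2,0)` is `x12`, `(2,2,2,1)` is `x22`,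
`(2,2,2,2)` is `w`.
* `T_tau`: `g₀ = diag(-1,-1,1,1)`: `act4 g₀ (tau x) = -tau (TX x)`, `act4 g₀ w0 = w0`
  (`act4_tens` and linearity, explicit).
-/

namespace HX

open HFinG HG
open scoped Matrix ContDiff Matrix.Norms.Operator

/-- the base point -/
def w04 : W4 := tens (Pi.single 2 1) (Pi.single 3 1)

/-- coordinates at the base point -/
noncomputable def cX : W4 →L[ℝ] Vx :=
  LinearMap.toContinuousLinearMap
    { toFun := fun t => (-(t 2 2 2 3).im / 6, t 2 2 2 2, (t 0 2 2 3, t 2 2 2 0), (t 1 2 2 3, t 2 2 2 1))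
      map_add' := by
        intro s t
        simp only [Pi.add_apply, Complex.add_im, Prod.mk_add_mk]
        refine Prod.ext ?_ rfl
        ring
      map_smul' := by
        intro c t
        simp only [Pi.smul_apply, Complex.smul_im, smul_eq_mul, RingHom.id_apply, Prod.smul_mk]
        refine Prod.ext ?_ rfl
        simp only
        ring }

theorem RB_cX_apply (t : W4) : cX t =
    (-(t 2 2 2 3).im / 6, t 2 2 2 2, (t 0 2 2 3, t 2 2 2 0), (t 1 2 2 3, t 2 2 2 1)) := rfl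

theorem RB_iota2 (x : Vx) : iotaX x *ᵥ Pi.single 2 1 =
    ![x.2.2.1.1, x.2.2.2.1, -2 * Complex.I * x.1, -star x.2.1] := by
  rw [Matrix.mulVec_single_one, iotaX_apply]
  funext i
  fin_cases i <;> simp [iotaF, Matrix.col]

theorem RB_iota3 (x : Vx) : iotaX x *ᵥ Pi.single 3 1 =
    ![x.2.2.1.2, x.2.2.2.2, x.2.1, 0] := by
  rw [Matrix.mulVec_single_one, iotaX_apply]
  funext i
  fin_cases i <;> simp [iotaF, Matrix.col]

theorem RB_hat2 (A : Hx) : hatX A *ᵥ Pi.single 2 1 =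
    (Complex.I * A.1 : ℂ) • (Pi.single 2 1 : Fin 4 → ℂ) := by
  rw [Matrix.mulVec_single_one, hatX_apply]
  funext i
  fin_cases i <;> simp [hatF, Matrix.col]

theorem RB_hat3 (A : Hx) : hatX A *ᵥ Pi.single 3 1 =
    (-3 * Complex.I * A.1 : ℂ) • (Pi.single 3 1 : Fin 4 → ℂ) := by
  rw [Matrix.mulVec_single_one, hatX_apply]
  funext i
  fin_cases i <;> simp [hatF, Matrix.col]

theorem cX_iota (x : Vx) : cX (fderiv ℝ (act4 : M4 → W4 →L[ℝ] W4) 1 (iotaX x) w04) = x := by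
  unfold w04
  rw [act4_fderiv, RB_iota2, RB_iota3, RB_cX_apply]
  obtain ⟨a, w, ⟨x11, x12⟩, ⟨x21, x22⟩⟩ := x
  simp [tens4, Pi.single_apply]
  ring

theorem hat_w04 (A : Hx) : fderiv ℝ (act4 : M4 → W4 →L[ℝ] W4) 1 (hatX A) w04 = 0 := by
  unfold w04
  rw [act4_fderiv, RB_hat2, RB_hat3]
  funext i j k l
  simp only [tens4, Pi.add_apply, Pi.smul_apply, smul_eq_mul, Pi.zero_apply]
  ring

/-- The representation. -/
noncomputable def repX : RepModel matX W4 where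
  ρ := act4
  smooth := act4_smooth
  one := act4_one
  mul := act4_mul
  w0 := w04
  c := cX
  c_iota := cX_iota
  hat_w0 := hat_w04

/-- `diag(-1,-1,1,1)` -/
def g0X : M4 := Matrix.diagonal ![-1, -1, 1, 1]

theorem RB_g2 : g0X *ᵥ Pi.single 2 1 = (Pi.single 2 1 : Fin 4 → ℂ) := by
  unfold g0X
  funext i
  rw [Matrix.mulVec_diagonal]
  fin_cases i <;> simp

theorem RB_g3 : g0X *ᵥ Pi.single 3 1 = (Pi.single 3 1 : Fin 4 → ℂ) := by
  unfold g0X
  funext i
  rw [Matrix.mulVec_diagonal]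
  fin_cases i <;> simp

theorem g0_fix : act4 g0X w04 = w04 := by
  have := act4_tens g0X (Pi.single 2 1) (Pi.single 2 1) (Pi.single 2 1) (Pi.single 3 1)
  rw [RB_g2, RB_g3] at this
  exact this

theorem RB_gi2 (x : Vx) : g0X *ᵥ (iotaX x *ᵥ Pi.single 2 1)
    = -(iotaX (TX x) *ᵥ Pi.single 2 1) := by
  rw [RB_iota2, RB_iota2, TX_apply]
  unfold g0X
  funext i
  rw [Matrix.mulVec_diagonal]
  fin_cases i <;> simp

theorem RB_gi3 (x : Vx) : g0X *ᵥ (iotaX x *ᵥ Pi.single 3 1)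
    = -(iotaX (TX x) *ᵥ Pi.single 3 1) := by
  rw [RB_iota3, RB_iota3, TX_apply]
  unfold g0X
  funext i
  rw [Matrix.mulVec_diagonal]
  fin_cases i <;> simp

theorem g0_tau (x : Vx) : act4 g0X (repX.tau x) = -repX.tau (TX x) := by
  show act4 g0X (fderiv ℝ (act4 : M4 → W4 →L[ℝ] W4) 1 (iotaX x) w04)
    = -(fderiv ℝ (act4 : M4 → W4 →L[ℝ] W4) 1 (iotaX (TX x)) w04)
  unfold w04
  rw [act4_fderiv, act4_fderiv, map_add, map_add, map_add, act4_tens, act4_tens, act4_tens,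
    act4_tens, RB_gi2, RB_gi3, RB_g2, RB_g3]
  funext i j k l
  simp only [tens4, Pi.add_apply, Pi.neg_apply]
  ring

end HX
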