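import Pool.Agent.HX.MA
import Pool.Agent.HG.A1

/-! MODULE RC (diff 2-3): `exp 𝔰𝔲(4) ⊆ SU(4)`.

* unitary: `NormedSpace.exp_mem_unitary_of_mem_skewAdjoint` or `Matrix.exp_conjTranspose`, `Matrix.exp_neg`.
* `det (exp S) = 1`: `B = -i S` is Hermitian; spectral theorem (`Matrix.IsHermitian.spectral_theorem`):
  `B = U D U*`, so `S = U (iD) U*`, `exp S = U exp(iD) U*` (`Matrix.exp_conj`/`Matrix.exp_units_conj`),
  `exp(iD) = diag (exp (i λ_j))` (`Matrix.exp_diagonal`), determinant `∏ exp(i λ_j) = exp(i ∑ λ_j) = exp(tr S) = 1`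
  (`Matrix.trace_mul_cycle`: `∑ λ_j = tr D = tr B`).
-/

namespace HX

open HFinG HG
open scoped Matrix ContDiff

theorem RC_det_exp {S : M4} (h1 : Sᴴ = -S) (h2 : S.trace = 0) :
    (NormedSpace.exp S).det = 1 := by
  set B : M4 := (-Complex.I) • S with hB
  have hBh : B.IsHermitian := by
    unfold Matrix.IsHermitian
    rw [hB, Matrix.conjTranspose_smul, h1]
    simp
  have hSB : S = Complex.I • B := by
    rw [hB, smul_smul]
    simp
  set U : M4 := (hBh.eigenvectorUnitary : M4) with hU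
  have hUU : U * star U = 1 := by
    have := hBh.eigenvectorUnitary.2
    exact (Unitary.mem_iff.1 this).2
  have hUU' : star U * U = 1 := by
    have := hBh.eigenvectorUnitary.2
    exact (Unitary.mem_iff.1 this).1
  have hUinv : U⁻¹ = star U := Matrix.inv_eq_left_inv hUU'
  have hUu : IsUnit U := ⟨⟨U, star U, hUU, hUU'⟩, rfl⟩
  have hsp : B = U * Matrix.diagonal ((fun x : ℝ => (x : ℂ)) ∘ hBh.eigenvalues) * star U := by
    have := hBh.spectral_theorem
    rw [Unitary.conjStarAlgAut_apply] at this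
    exact this
  have hS : S = U * Matrix.diagonal (fun j => Complex.I * (hBh.eigenvalues j : ℂ)) * U⁻¹ := by
    rw [hSB, hUinv]
    conv_lhs => rw [hsp]
    rw [← Matrix.smul_mul, ← Matrix.mul_smul, ← Matrix.diagonal_smul]
    rfl
  have hexp : NormedSpace.exp S =
      U * Matrix.diagonal (NormedSpace.exp (fun j => Complex.I * (hBh.eigenvalues j : ℂ))) * U⁻¹ := by
    conv_lhs => rw [hS]
    rw [Matrix.exp_conj _ _ hUu, Matrix.exp_diagonal]
  have htr : ∑ j, (hBh.eigenvalues j : ℂ) = 0 := by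
    have := hBh.trace_eq_sum_eigenvalues
    have h0 : B.trace = 0 := by rw [hB, Matrix.trace_smul, h2, smul_zero]
    rw [h0] at this
    exact this.symm
  rw [hexp, Matrix.det_mul, Matrix.det_mul, Matrix.det_diagonal]
  have h3 : U.det * U⁻¹.det = 1 := by
    rw [← Matrix.det_mul, hUinv, hUU, Matrix.det_one]
  have h4 : ∏ i, NormedSpace.exp (fun j => Complex.I * (hBh.eigenvalues j : ℂ)) i = 1 := by
    have h5 : ∀ i, NormedSpace.exp (fun j => Complex.I * (hBh.eigenvalues j : ℂ)) i =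
        Complex.exp (Complex.I * (hBh.eigenvalues i : ℂ)) := by
      intro i
      rw [Pi.coe_exp, Complex.exp_eq_exp_ℂ]
    rw [Finset.prod_congr rfl fun i _ => h5 i, ← Complex.exp_sum, ← Finset.mul_sum, htr, mul_zero,
      Complex.exp_zero]
  rw [h4, mul_one, h3]

open scoped Matrix.Norms.Operator

theorem exp_su {S : M4} (hS : IsSu S) :
    NormedSpace.exp S ∈ Matrix.specialUnitaryGroup (Fin 4) ℂ := by
  rw [Matrix.mem_specialUnitaryGroup_iff]
  constructor
  · have h1 : (NormedSpace.exp S)ᴴ = NormedSpace.exp (-S) := by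
      rw [← Matrix.exp_conjTranspose, hS.1]
    have h2 : NormedSpace.exp (-S) * NormedSpace.exp S = 1 := exp_neg_mul S
    have h3 : NormedSpace.exp S * NormedSpace.exp (-S) = 1 := exp_mul_neg S
    rw [← h1] at h2 h3
    exact Unitary.mem_iff.2 ⟨h2, h3⟩
  · exact RC_det_exp hS.1 hS.2

theorem g0_su : (Matrix.diagonal ![-1, -1, 1, 1] : M4) ∈ Matrix.specialUnitaryGroup (Fin 4) ℂ := by
  rw [Matrix.mem_specialUnitaryGroup_iff]
  have h1 : star (Matrix.diagonal ![-1, -1, 1, 1] : M4) = Matrix.diagonal ![-1, -1, 1, 1] := by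
    rw [Matrix.star_eq_conjTranspose, Matrix.diagonal_conjTranspose]
    congr 1
    funext i
    fin_cases i <;> simp
  have h2 : (Matrix.diagonal ![-1, -1, 1, 1] : M4) * Matrix.diagonal ![-1, -1, 1, 1] = 1 := by
    rw [Matrix.diagonal_mul_diagonal, ← Matrix.diagonal_one]
    congr 1
    funext i
    fin_cases i <;> simp
  constructor
  · rw [Matrix.mem_unitaryGroup_iff, h1, h2]
  · rw [Matrix.det_diagonal, Fin.prod_univ_four]
    simp

end HX
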