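import Pool.Agent.HX.RB

/-! MODULE RD (diff 2): the orbit.

* `su_mem`: `g ∈ SU(4)`, `t = tens u v ∈ Space4`: `act4 g t = tens (g u) (g v)` (`act4_tens`), and `g` preserves the
  Hermitian inner product (`Matrix.mem_specialUnitaryGroup_iff`, `Matrix.mem_unitaryGroup_iff'`).
* `base_mem`.
* `su_trans`: given orthonormal `u, v`, extend to an orthonormal basis `(a, b, u, v)` of `ℂ⁴`
  (`EuclideanSpace ℂ (Fin 4)`, `Orthonormal.exists_orthonormalBasis_extension_of_card_eq`), the matrix `g` with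
  columns `a, b, u, v` is unitary; multiply `a` by `(det g)⁻¹` to get determinant `1`.
* `su_stab`: `act4 g w04 = tens (g e₂) (g e₃)`.  If `tens p q = tens e₂ e₃` then comparing the entries
  `(i,2,2,3)`: `p i * p 2 ^ 2 * q 3 = δ_{i2}`: so `p 2 ≠ 0`, `q 3 ≠ 0`, `p i = 0` for `i ≠ 2`; similarly `q l = 0` for
  `l ≠ 3` and `p 2 ^ 3 * q 3 = 1`; `|p 2| = 1` as `g` is unitary (column norm).  Conversely compute.
-/

namespace HX

open HFinG HG
open scoped Matrix ContDiff Matrix.Norms.Operator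

theorem base_mem : w04 ∈ Space4 := by
  refine ⟨Pi.single 2 1, Pi.single 3 1, ?_, ?_, ?_, rfl⟩ <;>
    simp [Pi.single_apply]

theorem RD_act (g : M4) (u v : Fin 4 → ℂ) : act4 g (tens u v) = tens (g *ᵥ u) (g *ᵥ v) :=
  act4_tens g u u u v

theorem RD_inner {g : M4} (hg : g ∈ Matrix.specialUnitaryGroup (Fin 4) ℂ) (u v : Fin 4 → ℂ) :
    ∑ i, star ((g *ᵥ u) i) * (g *ᵥ v) i = ∑ i, star (u i) * v i := by
  have h1 : gᴴ * g = 1 := by
    have h2 := (Matrix.mem_specialUnitaryGroup_iff.1 hg).1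
    exact Matrix.mem_unitaryGroup_iff'.1 h2
  have e1 : ∑ i, star ((g *ᵥ u) i) * (g *ᵥ v) i = star (g *ᵥ u) ⬝ᵥ (g *ᵥ v) := rfl
  have e2 : ∑ i, star (u i) * v i = star u ⬝ᵥ v := rfl
  rw [e1, e2, Matrix.star_mulVec, Matrix.dotProduct_mulVec, Matrix.vecMul_vecMul, h1,
    Matrix.vecMul_one]

theorem su_mem {g : M4} (hg : g ∈ Matrix.specialUnitaryGroup (Fin 4) ℂ) {t : W4}
    (ht : t ∈ Space4) : act4 g t ∈ Space4 := by
  obtain ⟨u, v, h1, h2, h3, rfl⟩ := ht
  refine ⟨g *ᵥ u, g *ᵥ v, ?_, ?_, ?_, RD_act g u v⟩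
  · rw [RD_inner hg, h1]
  · rw [RD_inner hg, h2]
  · rw [RD_inner hg, h3]

theorem RD_ext {u v : Fin 4 → ℂ} (h1 : ∑ i, star (u i) * u i = 1)
    (h2 : ∑ i, star (v i) * v i = 1) (h3 : ∑ i, star (u i) * v i = 0) :
    ∃ g ∈ Matrix.unitaryGroup (Fin 4) ℂ, (∀ i, g i 2 = u i) ∧ (∀ i, g i 3 = v i) := by
  classical
  let f : Fin 4 → EuclideanSpace ℂ (Fin 4) := fun j => if j = 2 then WithLp.toLp 2 u else WithLp.toLp 2 v
  have f2 : f 2 = WithLp.toLp 2 u := by simp [f]
  have f3 : f 3 = WithLp.toLp 2 v := by simp [f]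
  have hin : ∀ a b : Fin 4 → ℂ, inner ℂ (WithLp.toLp 2 a : EuclideanSpace ℂ (Fin 4)) (WithLp.toLp 2 b)
      = ∑ i, star (a i) * b i := by
    intro a b
    rw [EuclideanSpace.inner_eq_star_dotProduct]
    show b ⬝ᵥ star a = _
    simp only [dotProduct, Pi.star_apply]
    exact Finset.sum_congr rfl fun i _ => mul_comm _ _
  have h3' : ∑ i, star (v i) * u i = 0 := by
    have := congrArg star h3
    rw [star_sum, star_zero] at this
    rw [← this]
    refine Finset.sum_congr rfl fun i _ => ?_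
    rw [star_mul, star_star]
  have horth : Orthonormal ℂ (({2, 3} : Set (Fin 4)).domRestrict f) := by
    rw [orthonormal_iff_ite]
    rintro ⟨i, hi⟩ ⟨j, hj⟩
    simp only [Set.mem_insert_iff, Set.mem_singleton_iff] at hi hj
    rcases hi with rfl | rfl <;> rcases hj with rfl | rfl
    · simp only [Set.domRestrict_apply, f2, hin, h1, if_true]
    · simp only [Set.domRestrict_apply, f2, f3, hin, h3]
      rw [if_neg (by simp)]
    · simp only [Set.domRestrict_apply, f2, f3, hin, h3']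
      rw [if_neg (by simp)]
    · simp only [Set.domRestrict_apply, f3, hin, h2, if_true]
  obtain ⟨b, hb⟩ := horth.exists_orthonormalBasis_extension_of_card_eq (by simp)
  refine ⟨Matrix.of fun i j => (b j).ofLp i, ?_, ?_, ?_⟩
  · rw [Matrix.mem_unitaryGroup_iff']
    ext j k
    have h := orthonormal_iff_ite.1 b.orthonormal j k
    rw [← WithLp.toLp_ofLp 2 (b j), ← WithLp.toLp_ofLp 2 (b k), hin] at h
    rw [Matrix.mul_apply, Matrix.one_apply, ← h]
    rfl
  · intro i
    rw [Matrix.of_apply, hb 2 (by simp), f2]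
  · intro i
    rw [Matrix.of_apply, hb 3 (by simp), f3]

theorem su_trans {t : W4} (ht : t ∈ Space4) :
    ∃ g ∈ Matrix.specialUnitaryGroup (Fin 4) ℂ, act4 g w04 = t := by
  obtain ⟨u, v, h1, h2, h3, rfl⟩ := ht
  obtain ⟨g, hg, hu, hv⟩ := RD_ext h1 h2 h3
  have hd := Matrix.det_of_mem_unitary hg
  set d : Fin 4 → ℂ := fun i => if i = 0 then star g.det else 1 with hd'
  have hdd : star g.det * g.det = 1 := (Unitary.mem_iff.1 hd).1
  have hdd' : g.det * star g.det = 1 := (Unitary.mem_iff.1 hd).2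
  have hD : Matrix.diagonal d ∈ Matrix.unitaryGroup (Fin 4) ℂ := by
    rw [Matrix.mem_unitaryGroup_iff']
    rw [Matrix.star_eq_conjTranspose, Matrix.diagonal_conjTranspose, Matrix.diagonal_mul_diagonal,
      ← Matrix.diagonal_one]
    congr 1
    funext i
    show star (d i) * d i = 1
    rw [hd']
    by_cases h : i = 0
    · simp only [if_pos h, star_star, hdd']
    · simp only [if_neg h, star_one, one_mul]
  refine ⟨g * Matrix.diagonal d, ?_, ?_⟩
  · rw [Matrix.mem_specialUnitaryGroup_iff]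
    refine ⟨mul_mem hg hD, ?_⟩
    rw [Matrix.det_mul, Matrix.det_diagonal, Fin.prod_univ_four]
    simp only [hd']
    simpa using hdd'
  · unfold w04
    rw [RD_act]
    have e2 : (g * Matrix.diagonal d) *ᵥ Pi.single 2 1 = u := by
      funext i
      rw [Matrix.mulVec_single_one, Matrix.col_apply, Matrix.mul_diagonal, hu]
      simp [hd']
    have e3 : (g * Matrix.diagonal d) *ᵥ Pi.single 3 1 = v := by
      funext i
      rw [Matrix.mulVec_single_one, Matrix.col_apply, Matrix.mul_diagonal, hv]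
      simp [hd']
    rw [e2, e3]

theorem su_stab {g : M4} (hg : g ∈ Matrix.specialUnitaryGroup (Fin 4) ℂ) :
    act4 g w04 = w04 ↔ ∃ z : ℂ, ‖z‖ = 1 ∧ (∀ i, g i 2 = if i = 2 then z else 0) ∧
      (∀ i, g i 3 = if i = 3 then (z ^ 3)⁻¹ else 0) := by
  have e2 : g *ᵥ Pi.single 2 1 = fun i => g i 2 := by
    funext i
    rw [Matrix.mulVec_single_one, Matrix.col_apply]
  have e3 : g *ᵥ Pi.single 3 1 = fun i => g i 3 := by
    funext i
    rw [Matrix.mulVec_single_one, Matrix.col_apply]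
  have e : act4 g w04 = tens (fun i => g i 2) (fun i => g i 3) := by
    unfold w04
    rw [RD_act, e2, e3]
  rw [e]
  constructor
  · intro h
    have hh : ∀ i j k l, g i 2 * g j 2 * g k 2 * g l 3 =
        (Pi.single 2 1 : Fin 4 → ℂ) i * (Pi.single 2 1 : Fin 4 → ℂ) j * (Pi.single 2 1 : Fin 4 → ℂ) k
          * (Pi.single 3 1 : Fin 4 → ℂ) l := by
      intro i j k l
      exact congrFun (congrFun (congrFun (congrFun h i) j) k) l
    have h0 : g 2 2 * g 2 2 * g 2 2 * g 3 3 = 1 := by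
      rw [hh]; simp
    have hg2 : g 2 2 ≠ 0 := by
      intro h'; rw [h'] at h0; simp at h0
    have hg3 : g 3 3 ≠ 0 := by
      intro h'; rw [h'] at h0; simp at h0
    have hi : ∀ i, i ≠ 2 → g i 2 = 0 := by
      intro i hi
      have := hh i 2 2 3
      rw [Pi.single_eq_of_ne hi] at this
      simpa [hg2, hg3] using this
    have hl : ∀ l, l ≠ 3 → g l 3 = 0 := by
      intro l hl
      have := hh 2 2 2 l
      rw [Pi.single_eq_of_ne hl] at this
      simpa [hg2, hg3] using this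
    have hnorm : star (g 2 2) * g 2 2 = 1 := by
      have h5 := RD_inner hg (Pi.single 2 1) (Pi.single 2 1)
      rw [e2] at h5
      simp only [Fin.sum_univ_four] at h5
      rw [hi 0 (by decide), hi 1 (by decide), hi 3 (by decide)] at h5
      simpa [Pi.single_apply] using h5
    refine ⟨g 2 2, ?_, ?_, ?_⟩
    · have h6 := congrArg norm hnorm
      rw [norm_mul, norm_star, norm_one] at h6
      have h7 := norm_nonneg (g 2 2)
      nlinarith
    · intro i
      by_cases h : i = 2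
      · rw [if_pos h, h]
      · rw [if_neg h, hi i h]
    · intro i
      by_cases h : i = 3
      · rw [if_pos h, h]
        refine eq_inv_of_mul_eq_one_right ?_
        rw [← h0]; ring
      · rw [if_neg h, hl i h]
  · rintro ⟨z, hz, h2, h3⟩
    have hz0 : z ≠ 0 := by
      intro h'; rw [h', norm_zero] at hz; exact zero_ne_one hz
    funext i j k l
    show g i 2 * g j 2 * g k 2 * g l 3 = (Pi.single 2 1 : Fin 4 → ℂ) i * (Pi.single 2 1 : Fin 4 → ℂ) j
      * (Pi.single 2 1 : Fin 4 → ℂ) k * (Pi.single 3 1 : Fin 4 → ℂ) l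
    rw [h2, h2, h2, h3]
    simp only [Pi.single_apply]
    split_ifs <;> simp
    field_simp

end HX
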