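import Pool.Agent.HX.MD
import Pool.Agent.HX.RB
import Pool.Agent.HX.RC
import Pool.Agent.HX.RD
import Pool.Agent.HG.C3

/-! MODULE Final (diff 2-3): assembly.

* `hM`: `act4 (sec v) w04 ∈ Space4` (`exp_su`, `iota_su`, `su_mem`, `base_mem`); `matX.sec v = exp (iotaX v)`.
* chart: `psi_param repX isProjX hM e` gives `ψ = psi 1 ∘ e` on `U ∋ 0`, `ψ 0 = w04` (`psi_zero`, `act4_one`),
  `Dψ(0) y = tau (e y)` (`psi_fderiv`, `(frame matX isProjX).zero_m`, `sec_zero`).
* `hinv'`: for `g ∈ SU(4)`: `F (act4 g w04) (act4 g (tau x)) = F w04 (tau x)` (`InvariantUnder` for `ψ` at `0`,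
  `y = e⁻¹ x`); with `g = sec v` this is the hypothesis of `norm_of_finsler`; for `g = exp (hat A)` (`hat_su`, `exp_su`,
  `hat_fix`) it is that of `inv_of_exp`; for `g = g0X` (`g0_su`, `g0_fix`, `g0_tau`) and reversibility
  (`ReversibleOn` at `0`) it gives `Fm (TX x) = Fm x`.
* `posFlag_of_finsler` and `not_posFlag`.
* `finrank ℝ Vx = 11`.
-/

namespace HX

open HFinG HG
open scoped Matrix ContDiff Matrix.Norms.Operator

theorem finrank_Vx : Module.finrank ℝ Vx = 11 := by
  simp only [Vx, Module.finrank_prod, Complex.finrank_real_complex, Module.finrank_self]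

theorem Final_sec (v : Vx) : matX.sec v ∈ Matrix.specialUnitaryGroup (Fin 4) ℂ :=
  exp_su (iota_su v)

theorem Final_mem (v : Vx) : repX.ρ (matX.sec v) repX.w0 ∈ Space4 :=
  su_mem (Final_sec v) base_mem

/-- a parametrization near the base point -/
theorem Final_chart {V' : Type*} [NormedAddCommGroup V'] [NormedSpace ℝ V']
    [FiniteDimensional ℝ V'] (hV : Module.finrank ℝ V' = 11) :
    ∃ (e : V' ≃L[ℝ] Vx) (U : Set V'), (0 : V') ∈ U ∧ IsParam Space4 U (repX.psi 1 ∘ e) ∧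
      (repX.psi 1 ∘ e) 0 = w04 ∧ ∀ y, fderiv ℝ (repX.psi 1 ∘ e) 0 y = repX.tau (e y) := by
  obtain e : V' ≃L[ℝ] Vx := ContinuousLinearEquiv.ofFinrankEq (hV.trans finrank_Vx.symm)
  obtain ⟨U0, h0, hU⟩ := psi_param repX isProjX Final_mem e
  refine ⟨e, e ⁻¹' U0, ?_, hU, (C3_zero repX isProjX e).1, (C3_zero repX isProjX e).2⟩
  change e 0 ∈ U0
  rwa [map_zero]

theorem su4_no_reversible {V' : Type*} [NormedAddCommGroup V'] [NormedSpace ℝ V']
    [FiniteDimensional ℝ V'] (hV : Module.finrank ℝ V' = 11) {F : W4 → W4 → ℝ}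
    (hF : IsFinslerOn V' Space4 F)
    (hinv : ∀ g ∈ Matrix.specialUnitaryGroup (Fin 4) ℂ, InvariantUnder V' Space4 F (act4 g))
    (hrev : ReversibleOn V' Space4 F) : ¬ PosFlagOn V' Space4 F := by
  intro hpos
  obtain ⟨e, U, h0, hU, hz, hd⟩ := Final_chart hV
  have hV2 : Module.finrank ℝ V' = Module.finrank ℝ Vx := hV.trans finrank_Vx.symm
  have hg : ∀ g ∈ Matrix.specialUnitaryGroup (Fin 4) ℂ, ∀ x,
      F (act4 g w04) (act4 g (repX.tau x)) = F w04 (repX.tau x) := by
    intro g hg x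
    have h1 := hinv g hg U _ hU 0 h0 (e.symm x)
    rwa [hz, hd, e.apply_symm_apply] at h1
  have hr : ∀ x, F w04 (-(repX.tau x)) = F w04 (repX.tau x) := by
    intro x
    have h1 := hrev U _ hU 0 h0 (e.symm x)
    rwa [hz, hd, e.apply_symm_apply] at h1
  have hsec : ∀ v x, F (repX.ρ (matX.sec v) repX.w0) (repX.ρ (matX.sec v) (repX.tau x)) =
      F repX.w0 (repX.tau x) := fun v x => hg _ (Final_sec v) x
  have hMink := norm_of_finsler repX isProjX hV2 Final_mem hF hsec
  have hH := inv_of_exp repX isProjX hMink (by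
    intro A x
    have h1 := hg _ (exp_su (hat_su A)) x
    have h2 : act4 (NormedSpace.exp (hatX A)) w04 = w04 := hat_fix repX A
    rw [h2] at h1
    exact h1)
  have hT : ∀ x, (fun x => F repX.w0 (repX.tau x)) (TX x) = (fun x => F repX.w0 (repX.tau x)) x := by
    intro x
    have h1 := hg g0X g0_su (TX x)
    rw [g0_fix, g0_tau] at h1
    have h2 : TX (TX x) = x := by
      rw [TX_apply, TX_apply]
      simp
    rw [h2, hr] at h1
    exact h1.symm
  exact not_posFlag hMink hT hH (posFlag_of_finsler repX isProjX hV2 Final_mem hF hsec hH hpos)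

theorem space4_param {V' : Type*} [NormedAddCommGroup V'] [NormedSpace ℝ V']
    [FiniteDimensional ℝ V'] (hV : Module.finrank ℝ V' = 11) {t : W4} (ht : t ∈ Space4) :
    ∃ (U : Set V') (ψ : V' → W4), IsParam Space4 U ψ ∧ t ∈ ψ '' U := by
  obtain ⟨e, U, h0, hU, hz, hd⟩ := Final_chart hV
  obtain ⟨g, hg, rfl⟩ := su_trans ht
  have hg' : ∃ g', g' * g = 1 := ⟨star g, (Unitary.mem_iff.1 hg.1).1⟩
  obtain ⟨g', hg'⟩ := hg'
  have hinj : Function.Injective (act4 g) := by
    intro s t hst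
    have h1 : act4 (g' * g) s = act4 (g' * g) t := by
      rw [act4_mul]
      change act4 g' (act4 g s) = act4 g' (act4 g t)
      rw [hst]
    rw [hg', act4_one] at h1
    exact h1
  refine ⟨U, act4 g ∘ (repX.psi 1 ∘ e), ⟨hU.isOpen, ?_, ?_, ?_⟩, 0, h0, ?_⟩
  · exact (act4 g).contDiff.comp_contDiffOn hU.smooth
  · intro v hv
    exact su_mem hg (hU.mem v hv)
  · intro v hv
    have hdiff : DifferentiableAt ℝ (repX.psi 1 ∘ e) v :=
      (((psi_smooth repX 1).comp e.contDiff).differentiable (by simp)) v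
    have h1 : fderiv ℝ (act4 g ∘ (repX.psi 1 ∘ e)) v =
        (act4 g).comp (fderiv ℝ (repX.psi 1 ∘ e) v) := by
      rw [fderiv_comp v (act4 g).differentiableAt hdiff, (act4 g).fderiv]
    rw [h1]
    exact hinj.comp (hU.inj v hv)
  · change act4 g ((repX.psi 1 ∘ e) 0) = act4 g w04
    rw [hz]

end HX
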