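import Pool.Agent.HFinG.A3

/-! MODULE L1 (diff 2-3): the Legendre transform of a Minkowski norm is bijective.

`E = F²/2`.  (`A1_energy_diff`, `A1_denergy_diff`, `fund_self`, `fund_self_self`, `fund_symm` in HFinG/A1, A2.)
* `F` is continuous on `V` (homogeneity; bounded on the unit sphere, `F 0 = 0`), there are `0 < a`, `b` with
  `a ‖x‖ ≤ F x ≤ b ‖x‖` (compactness of the unit sphere).
* `legendre_surj`: `f x = E x - ℓ x` is continuous and tends to `∞` at infinity (`≥ a²‖x‖²/2 - ‖ℓ‖‖x‖`), so it has a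
  minimum at some `x` (`Continuous.exists_forall_le` + `Filter.Tendsto ... cocompact`, or compact balls).
  `x ≠ 0`: if `ℓ v > 0` then `f (t v) = t² E v - t ℓ v < 0` for small `t > 0`.  At the minimum the derivative
  vanishes (`IsLocalMin.fderiv_eq_zero`): `DE(x) = ℓ`.
* `legendre_inj`: suppose `DE(x) = DE(y)`, `x ≠ y`, both nonzero.  If the segment `[x, y]` does not contain `0`
  then `t ↦ DE(x + t(y - x))(y - x)` has positive derivative `fund (..) (y-x) (y-x)` on `[0,1]`: contradiction.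
  If it does, `y = -c x` with `c > 0`, and `DE(y) x = -(1/c) DE(y) y = -(1/c) F(y)² < 0 < F(x)² = DE(x) x`
  (`fund_self`: `fund F x x v = DE(x) v`; `fund_self_self`).
-/

namespace HX

open HFinG
open scoped ContDiff

variable {V : Type*} [NormedAddCommGroup V] [NormedSpace ℝ V] [FiniteDimensional ℝ V]

omit [FiniteDimensional ℝ V] in
lemma L1_contAt {F : V → ℝ} (hF : IsMinkowski F) {x : V} (hx : x ≠ 0) : ContinuousAt F x :=
  (hF.smooth.contDiffAt (isOpen_ne.mem_nhds hx)).continuousAt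

omit [FiniteDimensional ℝ V] in
lemma L1_contSphere {F : V → ℝ} (hF : IsMinkowski F) :
    ContinuousOn F (Metric.sphere (0 : V) 1) := by
  intro x hx
  have : x ≠ 0 := by
    rintro rfl
    simp at hx
  exact (L1_contAt hF this).continuousWithinAt

omit [FiniteDimensional ℝ V] in
lemma L1_norm {F : V → ℝ} (hF : IsMinkowski F) {x : V} (hx : x ≠ 0) :
    F x = ‖x‖ * F (‖x‖⁻¹ • x) := by
  have h1 : 0 < ‖x‖ := norm_pos_iff.2 hx
  rw [hF.smul _ _ (inv_nonneg.2 h1.le)]
  field_simp

omit [FiniteDimensional ℝ V] in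
lemma L1_mem {x : V} (hx : x ≠ 0) : ‖x‖⁻¹ • x ∈ Metric.sphere (0 : V) 1 := by
  have h1 : 0 < ‖x‖ := norm_pos_iff.2 hx
  simp only [mem_sphere_iff_norm, sub_zero, norm_smul, norm_inv, norm_norm]
  exact inv_mul_cancel₀ h1.ne'

lemma L1_upper {F : V → ℝ} (hF : IsMinkowski F) : ∃ B : ℝ, 0 ≤ B ∧ ∀ x, F x ≤ B * ‖x‖ := by
  have : ProperSpace V := FiniteDimensional.proper_real V
  obtain ⟨B, hB⟩ := ((isCompact_sphere (0 : V) 1).image_of_continuousOn
    (L1_contSphere hF)).bddAbove
  refine ⟨max B 0, le_max_right _ _, fun x => ?_⟩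
  by_cases hx : x = 0
  · subst hx
    simp [hF.zero]
  · rw [L1_norm hF hx, mul_comm]
    refine mul_le_mul_of_nonneg_right ?_ (norm_nonneg _)
    exact (hB ⟨_, L1_mem hx, rfl⟩).trans (le_max_left _ _)

lemma L1_lower {F : V → ℝ} (hF : IsMinkowski F) [Nontrivial V] :
    ∃ a : ℝ, 0 < a ∧ ∀ x, a * ‖x‖ ≤ F x := by
  have : ProperSpace V := FiniteDimensional.proper_real V
  obtain ⟨z, hz⟩ := exists_ne (0 : V)
  obtain ⟨m, hm, hmin⟩ := (isCompact_sphere (0 : V) 1).exists_isMinOn ⟨_, L1_mem hz⟩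
    (L1_contSphere hF)
  have hm0 : m ≠ 0 := by
    rintro rfl
    simp at hm
  refine ⟨F m, hF.pos m hm0, fun x => ?_⟩
  by_cases hx : x = 0
  · subst hx
    simp [hF.zero]
  · rw [L1_norm hF hx, mul_comm]
    exact mul_le_mul_of_nonneg_left (hmin (L1_mem hx)) (norm_nonneg _)

lemma L1_cont {F : V → ℝ} (hF : IsMinkowski F) : Continuous F := by
  rw [continuous_iff_continuousAt]
  intro x
  by_cases hx : x = 0
  · subst hx
    obtain ⟨B, hB0, hB⟩ := L1_upper hF
    unfold ContinuousAt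
    rw [hF.zero]
    have hnn : ∀ x, 0 ≤ F x := by
      intro x
      by_cases hx : x = 0
      · subst hx
        rw [hF.zero]
      · exact (hF.pos x hx).le
    have ht : Filter.Tendsto (fun x : V => B * ‖x‖) (nhds 0) (nhds 0) := by
      have : Continuous fun x : V => B * ‖x‖ := continuous_const.mul continuous_norm
      have h2 := this.tendsto 0
      simpa using h2
    exact squeeze_zero hnn hB ht
  · exact L1_contAt hF hx

theorem legendre_surj {F : V → ℝ} (hF : IsMinkowski F) (ℓ : V →L[ℝ] ℝ) (hℓ : ℓ ≠ 0) :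
    ∃ x, x ≠ 0 ∧ fderiv ℝ (fun z => F z ^ 2 / 2) x = ℓ := by
  have : ProperSpace V := FiniteDimensional.proper_real V
  obtain ⟨v, hv⟩ : ∃ v, 0 < ℓ v := by
    obtain ⟨v, hv⟩ : ∃ v, ℓ v ≠ 0 := by
      by_contra hc
      push Not at hc
      exact hℓ (ContinuousLinearMap.ext hc)
    rcases lt_or_gt_of_ne hv with h | h
    · exact ⟨-v, by rw [map_neg]; linarith⟩
    · exact ⟨v, h⟩
  have hv0 : v ≠ 0 := by
    rintro rfl
    simp at hv
  have : Nontrivial V := ⟨v, 0, hv0⟩
  obtain ⟨a, ha, hlow⟩ := L1_lower hF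
  have hcont : Continuous fun x => F x ^ 2 / 2 - ℓ x :=
    (((L1_cont hF).pow 2).div_const 2).sub ℓ.continuous
  have hlim : Filter.Tendsto (fun x => F x ^ 2 / 2 - ℓ x) (Filter.cocompact V) Filter.atTop := by
    have h1 : Filter.Tendsto (fun t : ℝ => t * (a ^ 2 / 2 * t - ‖ℓ‖)) Filter.atTop
        Filter.atTop := by
      apply Filter.Tendsto.atTop_mul_atTop₀ Filter.tendsto_id
      apply Filter.tendsto_atTop_add_const_right
      exact Filter.Tendsto.const_mul_atTop (by positivity) Filter.tendsto_id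
    refine Filter.tendsto_atTop_mono ?_ (h1.comp (tendsto_norm_cocompact_atTop (E := V)))
    intro x
    have h2 := hlow x
    have h3 : ℓ x ≤ ‖ℓ‖ * ‖x‖ := (le_abs_self _).trans (ℓ.le_opNorm x)
    have h4 : (a * ‖x‖) ^ 2 ≤ F x ^ 2 := by
      have : 0 ≤ a * ‖x‖ := by positivity
      nlinarith
    simp only [Function.comp]
    nlinarith
  obtain ⟨x, hx⟩ := hcont.exists_forall_le hlim
  have hx0 : x ≠ 0 := by
    rintro rfl
    have h1 := hx ((ℓ v / F v ^ 2) • v)
    have hFv := hF.pos v hv0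
    rw [hF.zero, hF.smul _ _ (by positivity)] at h1
    simp only [map_zero, map_smul, smul_eq_mul] at h1
    have e : (ℓ v / F v ^ 2 * F v) ^ 2 / 2 - ℓ v / F v ^ 2 * ℓ v = -(ℓ v ^ 2 / F v ^ 2) / 2 := by
      field_simp
      ring
    rw [e] at h1
    have h2 : 0 < ℓ v ^ 2 / F v ^ 2 := by positivity
    linarith
  refine ⟨x, hx0, ?_⟩
  have hd : HasFDerivAt (fun x => F x ^ 2 / 2 - ℓ x)
      (fderiv ℝ (fun z => F z ^ 2 / 2) x - ℓ) x :=
    (A1_energy_diff hF hx0).hasFDerivAt.sub ℓ.hasFDerivAt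
  have hm : IsLocalMin (fun x => F x ^ 2 / 2 - ℓ x) x := Filter.Eventually.of_forall hx
  exact sub_eq_zero.1 (hm.hasFDerivAt_eq_zero hd)

theorem legendre_inj {F : V → ℝ} (hF : IsMinkowski F) {x y : V} (hx : x ≠ 0) (hy : y ≠ 0)
    (h : fderiv ℝ (fun z => F z ^ 2 / 2) x = fderiv ℝ (fun z => F z ^ 2 / 2) y) : x = y := by
  by_contra hne
  have hd : y - x ≠ 0 := sub_ne_zero.2 (Ne.symm hne)
  by_cases hseg : ∀ t ∈ Set.Icc (0 : ℝ) 1, x + t • (y - x) ≠ 0
  · have hder : ∀ t ∈ Set.Icc (0 : ℝ) 1,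
        HasDerivAt (fun t : ℝ => fderiv ℝ (fun z => F z ^ 2 / 2) (x + t • (y - x)) (y - x))
          (fund F (x + t • (y - x)) (y - x) (y - x)) t := by
      intro t ht
      have h1 : HasDerivAt (fun t : ℝ => x + t • (y - x)) (y - x) t := by
        simpa using ((hasDerivAt_id t).smul_const (y - x)).const_add x
      have h2 : HasFDerivAt (fun y => fderiv ℝ (fun z => F z ^ 2 / 2) y)
          (fund F (x + t • (y - x))) (x + t • (y - x)) :=
        (A1_denergy_diff hF (hseg t ht)).hasFDerivAt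
      have h3 := h2.comp_hasDerivAt t h1
      exact (h3.clm_apply (hasDerivAt_const t (y - x))).congr_deriv (by simp)
    have hmono : StrictMonoOn
        (fun t : ℝ => fderiv ℝ (fun z => F z ^ 2 / 2) (x + t • (y - x)) (y - x))
        (Set.Icc (0 : ℝ) 1) := by
      apply strictMonoOn_of_deriv_pos (convex_Icc 0 1)
      · intro t ht
        exact (hder t ht).continuousAt.continuousWithinAt
      · intro t ht
        rw [interior_Icc] at ht
        have ht' : t ∈ Set.Icc (0 : ℝ) 1 := ⟨ht.1.le, ht.2.le⟩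
        rw [(hder t ht').deriv]
        exact hF.conv _ _ (hseg t ht') hd
    have h01 := hmono (Set.left_mem_Icc.2 zero_le_one) (Set.right_mem_Icc.2 zero_le_one)
      (zero_lt_one)
    simp only [zero_smul, add_zero, one_smul, add_sub_cancel] at h01
    rw [h] at h01
    exact lt_irrefl _ h01
  · push Not at hseg
    obtain ⟨t, ⟨t0, t1⟩, ht⟩ := hseg
    have hDx : fderiv ℝ (fun z => F z ^ 2 / 2) y x = F x ^ 2 := by
      rw [← h, ← fund_self hF hx, fund_self_self hF hx]
    have hDy : fderiv ℝ (fun z => F z ^ 2 / 2) y y = F y ^ 2 := by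
      rw [← fund_self hF hy, fund_self_self hF hy]
    have h1 := congrArg (fderiv ℝ (fun z => F z ^ 2 / 2) y) ht
    rw [map_add, map_smul, map_sub, hDx, hDy, map_zero, smul_eq_mul] at h1
    have hFx := hF.pos x hx
    have hFy := hF.pos y hy
    have h2 : (1 - t) * F x ^ 2 + t * F y ^ 2 = 0 := by linarith
    have h3 : 0 ≤ (1 - t) * F x ^ 2 := mul_nonneg (by linarith) (by positivity)
    have h4 : 0 ≤ t * F y ^ 2 := mul_nonneg t0 (by positivity)
    have h5 : t * F y ^ 2 = 0 := by linarith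
    have h6 : (1 - t) * F x ^ 2 = 0 := by linarith
    have h7 : t = 0 := by
      rcases mul_eq_zero.1 h5 with h | h
      · exact h
      · exact absurd h (by positivity)
    rw [h7] at h6
    have : F x ^ 2 = 0 := by linarith
    exact absurd this (by positivity)

end HX
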