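import Pool.Agent.HFinG.A3

/-! MODULE L2 (diff 1-2): consequences of invariance.

`E = F²/2`.
* `denergy_equiv`, `fund_equiv`: `E ∘ T = E` for a linear `T`; differentiate once/twice.
* `fund_act`: `DE(x)(act A x) = 0` for all `x ≠ 0`; differentiate at `x` in direction `v`:
  `fund F x v (act A x) + DE(x)(act A v) = 0`.
-/

namespace HX

open HFinG
open scoped ContDiff

variable {V H : Type*} [NormedAddCommGroup V] [NormedSpace ℝ V] [FiniteDimensional ℝ V]
  [NormedAddCommGroup H] [NormedSpace ℝ H]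

omit [FiniteDimensional ℝ V] in
theorem L2_ne (T : V ≃L[ℝ] V) {x : V} (hx : x ≠ 0) : T x ≠ 0 := by
  intro h
  apply hx
  rw [← T.symm_apply_apply x, h, map_zero]

theorem denergy_equiv {F : V → ℝ} (hF : IsMinkowski F) (T : V ≃L[ℝ] V) (hT : ∀ x, F (T x) = F x)
    {x : V} (hx : x ≠ 0) (v : V) :
    fderiv ℝ (fun z => F z ^ 2 / 2) (T x) (T v) = fderiv ℝ (fun z => F z ^ 2 / 2) x v := by
  have hTx : T x ≠ 0 := L2_ne T hx
  have h1 : HasFDerivAt (fun z => F z ^ 2 / 2) (fderiv ℝ (fun z => F z ^ 2 / 2) (T x)) (T x) :=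
    (A1_energy_diff hF hTx).hasFDerivAt
  have h2 : HasFDerivAt (fun z => F (T z) ^ 2 / 2)
      ((fderiv ℝ (fun z => F z ^ 2 / 2) (T x)).comp (T : V →L[ℝ] V)) x :=
    h1.comp x (T : V →L[ℝ] V).hasFDerivAt
  have h3 : (fun z => F (T z) ^ 2 / 2) = (fun z => F z ^ 2 / 2) := by
    funext z
    rw [hT z]
  rw [h3] at h2
  rw [h2.fderiv]
  rfl

theorem fund_equiv {F : V → ℝ} (hF : IsMinkowski F) (T : V ≃L[ℝ] V) (hT : ∀ x, F (T x) = F x)
    {x : V} (hx : x ≠ 0) (u v : V) : fund F (T x) (T u) (T v) = fund F x u v := by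
  have hTx : T x ≠ 0 := L2_ne T hx
  have h1 := A1_fund_eq hF hTx (T v)
  have h2 : HasFDerivAt (fun z => fderiv ℝ (fun z => F z ^ 2 / 2) (T z) (T v))
      (((ContinuousLinearMap.apply ℝ ℝ (T v)).comp (fund F (T x))).comp (T : V →L[ℝ] V)) x :=
    h1.comp x (T : V →L[ℝ] V).hasFDerivAt
  have h3 : (fun z => fderiv ℝ (fun z => F z ^ 2 / 2) z v) =ᶠ[nhds x]
      (fun z => fderiv ℝ (fun z => F z ^ 2 / 2) (T z) (T v)) := by
    filter_upwards [A1_open.mem_nhds hx] with y hy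
    exact (denergy_equiv hF T hT hy v).symm
  have h4 := h2.congr_of_eventuallyEq h3
  have h5 := h4.unique (A1_fund_eq hF hx v)
  have h6 := congrArg (fun L : V →L[ℝ] ℝ => L u) h5
  simpa using h6

theorem fund_act {D : RedData V H} {F : V → ℝ} (hF : IsMinkowski F)
    (hinv : ∀ A x, x ≠ 0 → fderiv ℝ (fun z => F z ^ 2 / 2) x (D.act A x) = 0)
    {x : V} (hx : x ≠ 0) (A : H) (v : V) :
    fund F x (D.act A x) v = - fderiv ℝ (fun z => F z ^ 2 / 2) x (D.act A v) := by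
  have h1 : HasFDerivAt (fun z => fderiv ℝ (fun z => F z ^ 2 / 2) z) (fund F x) x :=
    (A1_denergy_diff hF hx).hasFDerivAt
  have h2 := h1.clm_apply (D.act A).hasFDerivAt
  have h3 : (fun _ : V => (0 : ℝ)) =ᶠ[nhds x]
      (fun z => fderiv ℝ (fun z => F z ^ 2 / 2) z (D.act A z)) := by
    filter_upwards [A1_open.mem_nhds hx] with y hy
    exact (hinv A y hy).symm
  have h4 := h2.congr_of_eventuallyEq h3
  have h5 := h4.unique (hasFDerivAt_const (0 : ℝ) x)
  have h6 := congrArg (fun L : V →L[ℝ] ℝ => L v) h5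
  have h7 : fderiv ℝ (fun z => F z ^ 2 / 2) x (D.act A v) + fund F x v (D.act A x) = 0 := by
    simpa using h6
  rw [fund_symm hF hx (D.act A x) v]
  linarith

end HX
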