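import Pool.Agent.HFinG.C2
import Pool.Agent.HFinG.C1

/-! MODULE L3 (diff 1-2): a flag of nonpositive curvature.

`curvQ = fund (N y) (N y) - kk2 y y / 2 + fund (act (mh x y) x) y` (definition in HFinG/KDefs).
* `h1` gives `spray D F x = 0` (`spray_spec`, `fund_inj`): the `fderiv … (spray D F x)` terms in `conn_spec`, `kk1`,
  `kk2` vanish.
* `conn_spec` with `w = y`: `2 fund (N y) u = fund (mm u y) x + fund (mm u x) y + fund (mm y x) u
  = fund (mm y x) u` by `h2`, `h3` and symmetry (`fund_symm`).  So `fund (N y) (N y) = ¼ fund (mm x y) (mm x y)`.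
* `kk1 a b = fund (mm x a) b + fund a (mm x b)` and `kk2 y y = kk1 (mm x y) y + kk1 y (mm x y)
  = 2 fund (mm x (mm x y)) y + 2 fund (mm x y) (mm x y) = 2 fund (mm x y) (mm x y)` by `h3`
  (`mm x u = - mm u x`).
* so `curvQ = -¾ fund F x (mm x y) (mm x y) ≤ 0`, and `flagK_pos_iff`.
-/

namespace HX

open HFinG
open scoped ContDiff

variable {V H : Type*} [NormedAddCommGroup V] [NormedSpace ℝ V] [FiniteDimensional ℝ V]
  [NormedAddCommGroup H] [NormedSpace ℝ H]

theorem L3_spray {D : RedData V H} {F : V → ℝ} (hF : IsMinkowski F) {x : V} (hx : x ≠ 0)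
    (h1 : ∀ v, fund F x x (D.mm v x) = 0) : spray D F x = 0 := by
  apply fund_inj hF hx
  intro v
  rw [spray_spec D hF hx, h1, map_zero]
  rfl

theorem curvQ_comm {D : RedData V H} {F : V → ℝ} (hF : IsMinkowski F) {x y : V} (hx : x ≠ 0)
    (h1 : ∀ v, fund F x x (D.mm v x) = 0) (h2 : ∀ v, fund F x x (D.mm v y) = 0)
    (h3 : ∀ v, fund F x y (D.mm v x) = 0) (h4 : fund F x y (D.act (D.mh x y) x) = 0) :
    curvQ D F x y = -(3 / 4) * fund F x (D.mm x y) (D.mm x y) := by
  have hs : spray D F x = 0 := L3_spray hF hx h1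
  have h3' : ∀ v, fund F x y (D.mm x v) = 0 := by
    intro v
    rw [mm_anti D x v, map_neg, h3, neg_zero]
  have hk : ∀ v, kk1 D F x y v = fund F x (D.mm x y) v := by
    intro v
    unfold kk1
    rw [hs, map_zero, h3']
    ring
  have hk' : ∀ v, kk1 D F x v y = fund F x (D.mm x y) v := by
    intro v
    rw [kk1_symm D hF hx, hk]
  have hc : conn D F x y = -((1 / 2 : ℝ) • D.mm x y) := by
    apply fund_inj hF hx
    intro u
    have h5 := conn_kk1 D hF hx y u
    rw [h2, hk] at h5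
    rw [map_neg, map_smul]
    simp only [ContinuousLinearMap.neg_apply, ContinuousLinearMap.smul_apply, smul_eq_mul]
    linarith
  unfold curvQ kk2
  rw [hs, map_zero, hk, hk', hc, fund_symm hF hx (D.act (D.mh x y) x) y, h4]
  simp only [map_neg, map_smul, ContinuousLinearMap.neg_apply, ContinuousLinearMap.smul_apply,
    smul_eq_mul]
  ring

theorem flagK_nonpos {D : RedData V H} {F : V → ℝ} (hF : IsMinkowski F) {x y : V}
    (hxy : LinearIndependent ℝ ![x, y])
    (h1 : ∀ v, fund F x x (D.mm v x) = 0) (h2 : ∀ v, fund F x x (D.mm v y) = 0)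
    (h3 : ∀ v, fund F x y (D.mm v x) = 0) (h4 : fund F x y (D.act (D.mh x y) x) = 0) :
    ¬ 0 < flagK D F x y := by
  have hx : x ≠ 0 := by simpa using hxy.ne_zero 0
  rw [flagK_pos_iff D hF hxy, curvQ_comm hF hx h1 h2 h3 h4]
  have h5 : 0 ≤ fund F x (D.mm x y) (D.mm x y) := by
    by_cases h : D.mm x y = 0
    · rw [h]; simp
    · exact (hF.conv x _ hx h).le
  linarith

end HX
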