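import Pool.Agent.HX.MDefs

/-! MODULE MA (diff 2): `𝔰𝔲(4) = 𝔪 ⊕ 𝔥` as matrices; the `MatModel`.

Everything by explicit `4 × 4` matrices: `ext i j; fin_cases i <;> fin_cases j <;> simp [...]`
(`Matrix.mul_apply`, `Fin.sum_univ_four`), then `Complex.ext` and `ring`/`linarith`.
* `decomp_su`: the entries of a skew-Hermitian traceless `S` are determined by `S i j`, `i ≤ j`, the diagonal is
  imaginary: `(S i i).re = 0`, and `∑ (S i i).im = 0`.
* `comm_iota`: the commutator of two skew-Hermitian matrices is skew-Hermitian and traceless.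
* `comm_hat`: in addition `prhX (hatX A * iotaX x - iotaX x * hatX A) = 0`.
* `comm_hh`: `prmX (hatX A * hatX B - hatX B * hatX A) = 0`.
-/

namespace HX

open HFinG HG
open scoped Matrix ContDiff Matrix.Norms.Operator

/-- `S ∈ 𝔰𝔲(4)` -/
def IsSu (S : M4) : Prop := Sᴴ = -S ∧ S.trace = 0

theorem MA_star_I (r : ℝ) : star (Complex.I * (r : ℂ)) = -(Complex.I * (r : ℂ)) := by
  apply Complex.ext <;> simp

theorem iota_su (x : Vx) : IsSu (iotaX x) := by
  constructor
  · rw [iotaX_apply]
    ext i j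
    fin_cases i <;> fin_cases j <;> apply Complex.ext <;>
      simp [iotaF, Matrix.conjTranspose_apply]
  · rw [iotaX_apply]
    simp [iotaF, Matrix.trace, Fin.sum_univ_four]
    ring

theorem hat_su (A : Hx) : IsSu (hatX A) := by
  constructor
  · rw [hatX_apply]
    ext i j
    fin_cases i <;> fin_cases j <;> apply Complex.ext <;>
      simp [hatF, Matrix.conjTranspose_apply]
  · rw [hatX_apply]
    simp [hatF, Matrix.trace, Fin.sum_univ_four]
    ring

theorem comm_su {S T : M4} (hS : IsSu S) (hT : IsSu T) : IsSu (S * T - T * S) := by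
  constructor
  · rw [Matrix.conjTranspose_sub, Matrix.conjTranspose_mul, Matrix.conjTranspose_mul, hS.1, hT.1]
    simp only [Matrix.neg_mul, Matrix.mul_neg, neg_neg, neg_sub]
  · rw [Matrix.trace_sub, Matrix.trace_mul_comm, sub_self]

theorem prm_inc (x : Vx) (A : Hx) : prmX (iotaX x + hatX A) = x := by
  obtain ⟨a, w, ⟨x11, x12⟩, ⟨x21, x22⟩⟩ := x
  obtain ⟨t, s, z⟩ := A
  rw [prmX_apply, iotaX_apply, hatX_apply]
  simp only [prmF, iotaF, hatF, Matrix.add_apply]
  simp
  ring

theorem prh_inc (x : Vx) (A : Hx) : prhX (iotaX x + hatX A) = A := by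
  obtain ⟨a, w, ⟨x11, x12⟩, ⟨x21, x22⟩⟩ := x
  obtain ⟨t, s, z⟩ := A
  rw [prhX_apply, iotaX_apply, hatX_apply]
  simp only [prhF, iotaF, hatF, Matrix.add_apply]
  simp

theorem MA_diag_re {S : M4} (hS : IsSu S) (i : Fin 4) : (S i i).re = 0 := by
  have h := congrFun (congrFun hS.1 i) i
  rw [Matrix.conjTranspose_apply, Matrix.neg_apply] at h
  have h2 := congrArg Complex.re h
  simp at h2
  linarith

theorem MA_lower {S : M4} (hS : IsSu S) (i j : Fin 4) : S i j = -star (S j i) := by
  have h := congrFun (congrFun hS.1 i) j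
  rw [Matrix.conjTranspose_apply, Matrix.neg_apply] at h
  rw [h, neg_neg]

theorem decomp_su {S : M4} (hS : IsSu S) : S = iotaX (prmX S) + hatX (prhX S) := by
  rw [prmX_apply, prhX_apply, iotaX_apply, hatX_apply]
  have d0 := MA_diag_re hS 0
  have d1 := MA_diag_re hS 1
  have d2 := MA_diag_re hS 2
  have d3 := MA_diag_re hS 3
  have htr : (S 0 0).im + (S 1 1).im + (S 2 2).im + (S 3 3).im = 0 := by
    have h := congrArg Complex.im hS.2
    simpa [Matrix.trace, Fin.sum_univ_four] using h
  have l10 := MA_lower hS 1 0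
  have l20 := MA_lower hS 2 0
  have l30 := MA_lower hS 3 0
  have l21 := MA_lower hS 2 1
  have l31 := MA_lower hS 3 1
  have l32 := MA_lower hS 3 2
  ext i j
  fin_cases i <;> fin_cases j <;>
    first
      | (apply Complex.ext <;> simp [iotaF, hatF, prmF, prhF, d0, d1, d2, d3] <;> linarith)
      | (simp [iotaF, hatF, prmF, prhF, l10, l20, l30, l21, l31, l32])

theorem prh_hat_iota (A : Hx) (x : Vx) : prhX (hatX A * iotaX x - iotaX x * hatX A) = 0 := by
  obtain ⟨a, w, ⟨x11, x12⟩, ⟨x21, x22⟩⟩ := x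
  obtain ⟨t, s, z⟩ := A
  rw [prhX_apply, iotaX_apply, hatX_apply]
  simp only [prhF, iotaF, hatF, Matrix.sub_apply, Matrix.mul_apply, Fin.sum_univ_four]
  simp
  ring_nf

theorem prm_hat_hat (A B : Hx) : prmX (hatX A * hatX B - hatX B * hatX A) = 0 := by
  obtain ⟨t, s, z⟩ := A
  obtain ⟨t', s', z'⟩ := B
  rw [prmX_apply, hatX_apply, hatX_apply]
  simp only [prmF, hatF, Matrix.sub_apply, Matrix.mul_apply, Fin.sum_univ_four]
  simp

/-- The matrix model of `𝔰𝔲(4)`. -/
noncomputable def matX : MatModel M4 Vx Hx where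
  D := datX
  hh := compBr prhX hatX hatX
  iota := iotaX
  hat := hatX
  comm_iota := fun x y => decomp_su (comm_su (iota_su x) (iota_su y))
  comm_hat := fun A x => by
    have h := decomp_su (comm_su (hat_su A) (iota_su x))
    rw [prh_hat_iota, map_zero, add_zero] at h
    exact h
  comm_hh := fun A B => by
    have h := decomp_su (comm_su (hat_su A) (hat_su B))
    rw [prm_hat_hat, map_zero, zero_add] at h
    exact h
  inj := fun x A h =>
    ⟨(prm_inc x A).symm.trans ((congrArg prmX h).trans (map_zero prmX)),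
      (prh_inc x A).symm.trans ((congrArg prhX h).trans (map_zero prhX))⟩

theorem isProjX : matX.IsProj prmX prhX := ⟨prm_inc, prh_inc⟩

end HX
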