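import Pool.Agent.HX.MA

/-! MODULE MB (diff 2): the invariant form.

* `QX_prm`: `QX x (prmX S) = -½ Re tr (iotaX x * S)` for `S ∈ 𝔰𝔲(4)` (explicit entries; for `S` the entries below
  the diagonal are determined).
* `QX_comm`: `tr (x (v y - y v)) = tr ((y x - x y) v)` (`Matrix.trace_mul_comm`, `Matrix.trace_mul_cycle`).
* `act_skew`: same, or explicit.
-/

namespace HX

open HFinG HG
open scoped Matrix ContDiff Matrix.Norms.Operator

theorem MB_entry {S : M4} (hS : IsSu S) (i j : Fin 4) : S i j = -star (S j i) := by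
  have h := congrFun (congrFun hS.1 i) j
  rw [Matrix.conjTranspose_apply, Matrix.neg_apply] at h
  rw [h, neg_neg]

theorem MB_re {S : M4} (hS : IsSu S) (i : Fin 4) : (S i i).re = 0 := by
  have h := congrArg Complex.re (MB_entry hS i i)
  simp at h
  linarith

theorem MB_tr {S : M4} (hS : IsSu S) :
    (S 0 0).im + (S 1 1).im + (S 2 2).im + (S 3 3).im = 0 := by
  have h := congrArg Complex.im hS.2
  simpa [Matrix.trace, Fin.sum_univ_four] using h

theorem QX_prm (x : Vx) {S : M4} (hS : IsSu S) :
    QX x (prmX S) = -(1 / 2) * (Matrix.trace (iotaX x * S)).re := by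
  obtain ⟨a, w, ⟨x11, x12⟩, ⟨x21, x22⟩⟩ := x
  have htr := MB_tr hS
  have l20 := MB_entry hS 2 0
  have l30 := MB_entry hS 3 0
  have l21 := MB_entry hS 2 1
  have l31 := MB_entry hS 3 1
  have l32 := MB_entry hS 3 2
  rw [prmX_apply, iotaX_apply]
  simp only [QX, prmF, iotaF, Matrix.trace, Matrix.diag_apply, Matrix.mul_apply,
    Fin.sum_univ_four]
  simp [l20, l30, l21, l31, l32]
  have h0 : (S 0 0).im = -(S 1 1).im - (S 2 2).im - (S 3 3).im := by linarith
  rw [h0]
  ring

theorem QX_symm (x y : Vx) : QX x y = QX y x := by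
  simp only [QX, Complex.star_def, Complex.mul_re, Complex.conj_re, Complex.conj_im]
  ring

/-- `QX x` as a continuous linear functional -/
theorem QX_lin (x : Vx) : ∃ ℓ : Vx →L[ℝ] ℝ, ∀ y, ℓ y = QX x y := by
  refine ⟨LinearMap.toContinuousLinearMap
    { toFun := fun y => QX x y
      map_add' := ?_
      map_smul' := ?_ }, fun y => rfl⟩
  · intro y z
    simp only [QX, Complex.star_def, Complex.mul_re, Complex.conj_re, Complex.conj_im,
      Prod.fst_add, Prod.snd_add, Complex.add_re, Complex.add_im]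
    ring
  · intro c y
    simp only [QX, Complex.star_def, Complex.mul_re, Complex.conj_re, Complex.conj_im,
      Prod.smul_fst, Prod.smul_snd, Complex.smul_re, Complex.smul_im, smul_eq_mul,
      RingHom.id_apply]
    ring

theorem MB_Q_self (x : Vx) (h : QX x x = 0) : x = 0 := by
  obtain ⟨a, w, ⟨x11, x12⟩, ⟨x21, x22⟩⟩ := x
  simp only [QX, Complex.star_def, Complex.mul_re, Complex.conj_re, Complex.conj_im] at h
  have h1 := mul_self_nonneg a
  have h2 := mul_self_nonneg w.re
  have h3 := mul_self_nonneg w.im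
  have h4 := mul_self_nonneg x11.re
  have h5 := mul_self_nonneg x11.im
  have h6 := mul_self_nonneg x12.re
  have h7 := mul_self_nonneg x12.im
  have h8 := mul_self_nonneg x21.re
  have h9 := mul_self_nonneg x21.im
  have h10 := mul_self_nonneg x22.re
  have h11 := mul_self_nonneg x22.im
  have e1 : a = 0 := mul_self_eq_zero.1 (by linarith)
  have e2 : w.re = 0 := mul_self_eq_zero.1 (by linarith)
  have e3 : w.im = 0 := mul_self_eq_zero.1 (by linarith)
  have e4 : x11.re = 0 := mul_self_eq_zero.1 (by linarith)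
  have e5 : x11.im = 0 := mul_self_eq_zero.1 (by linarith)
  have e6 : x12.re = 0 := mul_self_eq_zero.1 (by linarith)
  have e7 : x12.im = 0 := mul_self_eq_zero.1 (by linarith)
  have e8 : x21.re = 0 := mul_self_eq_zero.1 (by linarith)
  have e9 : x21.im = 0 := mul_self_eq_zero.1 (by linarith)
  have e10 : x22.re = 0 := mul_self_eq_zero.1 (by linarith)
  have e11 : x22.im = 0 := mul_self_eq_zero.1 (by linarith)
  have f1 : w = 0 := Complex.ext e2 e3
  have f2 : x11 = 0 := Complex.ext e4 e5
  have f3 : x12 = 0 := Complex.ext e6 e7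
  have f4 : x21 = 0 := Complex.ext e8 e9
  have f5 : x22 = 0 := Complex.ext e10 e11
  rw [e1, f1, f2, f3, f4, f5]
  rfl

theorem MB_Q_sub (x y v : Vx) : QX (x - y) v = QX x v - QX y v := by
  simp only [QX, Complex.star_def, Complex.mul_re, Complex.conj_re, Complex.conj_im,
      Prod.fst_sub, Prod.snd_sub, Complex.sub_re, Complex.sub_im]
  ring

theorem QX_inj {x y : Vx} (h : ∀ v, QX x v = QX y v) : x = y := by
  have h1 : QX (x - y) (x - y) = 0 := by
    rw [MB_Q_sub, h, sub_self]
  exact sub_eq_zero.1 (MB_Q_self _ h1)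

theorem QX_TX (x y : Vx) : QX (TX x) (TX y) = QX x y := by
  rw [TX_apply, TX_apply]
  simp only [QX, Complex.star_def, Complex.mul_re, Complex.conj_re, Complex.conj_im,
    Complex.neg_re, Complex.neg_im]
  ring

theorem QX_comm {x y : Vx} (h : iotaX x * iotaX y = iotaX y * iotaX x) (v : Vx) :
    QX x (datX.mm v y) = 0 := by
  rw [datX_mm, QX_prm x (comm_su (iota_su v) (iota_su y)), Matrix.mul_sub, Matrix.trace_sub]
  have e1 : Matrix.trace (iotaX x * (iotaX v * iotaX y))
      = Matrix.trace (iotaX y * iotaX x * iotaX v) := by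
    rw [← Matrix.mul_assoc, Matrix.trace_mul_cycle]
  have e2 : Matrix.trace (iotaX x * (iotaX y * iotaX v))
      = Matrix.trace (iotaX x * iotaX y * iotaX v) := by
    rw [← Matrix.mul_assoc]
  rw [e1, e2, h, sub_self]
  simp

theorem QX_comm_act {x y : Vx} (h : iotaX x * iotaX y = iotaX y * iotaX x) (A : Hx) :
    QX x (datX.act A y) = 0 := by
  rw [datX_act, QX_prm x (comm_su (hat_su A) (iota_su y)), Matrix.mul_sub, Matrix.trace_sub]
  have e1 : Matrix.trace (iotaX x * (hatX A * iotaX y))
      = Matrix.trace (iotaX y * iotaX x * hatX A) := by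
    rw [← Matrix.mul_assoc, Matrix.trace_mul_cycle]
  have e2 : Matrix.trace (iotaX x * (iotaX y * hatX A))
      = Matrix.trace (iotaX x * iotaX y * hatX A) := by
    rw [← Matrix.mul_assoc]
  rw [e1, e2, h, sub_self]
  simp

theorem act_skew (A : Hx) (x y : Vx) : QX (datX.act A x) y = -QX x (datX.act A y) := by
  rw [QX_symm, datX_act, datX_act, QX_prm y (comm_su (hat_su A) (iota_su x)),
    QX_prm x (comm_su (hat_su A) (iota_su y)), Matrix.mul_sub, Matrix.mul_sub,
    Matrix.trace_sub, Matrix.trace_sub]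
  have e1 : Matrix.trace (iotaX y * (hatX A * iotaX x))
      = Matrix.trace (iotaX x * (iotaX y * hatX A)) := by
    rw [← Matrix.mul_assoc, Matrix.trace_mul_cycle, Matrix.mul_assoc]
  have e2 : Matrix.trace (iotaX y * (iotaX x * hatX A))
      = Matrix.trace (iotaX x * (hatX A * iotaX y)) := by
    rw [Matrix.trace_mul_comm, Matrix.mul_assoc]
  rw [e1, e2, Complex.sub_re, Complex.sub_re]
  ring

end HX
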