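import Pool.Agent.HX.MA

/-! MODULE MC (diff 1-2): Hermitian elements.

* `her_comm`: for Hermitian commuting `X, Y ∈ M₂(ℂ)` the matrices `(0 X; -X 0)`, `(0 Y; -Y 0)` commute; explicit.
* `ortho`: `x = (0, 0, X)` (from `TX x = x`), and `QX (act A ξ₀) x = 0` for `ξ₀ = herX 1 0 0`:
  `act (t, s, z) ξ₀ = (0, 0, diag(0, 4 i t) + (i s, z; -z̄, -i s))`, so `Im X22 = 0` (`s = z = 0`), `Im X11 = Im X22`
  (`t = z = 0`), and `Re(z̄ X12) = Re(z X21)` for all `z`, i.e. `X21 = star X12`.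
-/

namespace HX

open HFinG HG
open scoped Matrix ContDiff Matrix.Norms.Operator

theorem MC_mul (p q : ℝ) (r s : ℝ) (z w : ℂ) :
    iotaF (herX p r z) * iotaF (herX q s w) =
      !![-(((p + r : ℝ) : ℂ) * ((q + s : ℝ) : ℂ) + z * star w),
          -(((p + r : ℝ) : ℂ) * w + z * ((q - s : ℝ) : ℂ)), 0, 0;
         -(star z * ((q + s : ℝ) : ℂ) + ((p - r : ℝ) : ℂ) * star w),
          -(star z * w + ((p - r : ℝ) : ℂ) * ((q - s : ℝ) : ℂ)), 0, 0;
         0, 0, -(((p + r : ℝ) : ℂ) * ((q + s : ℝ) : ℂ) + z * star w),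
          -(((p + r : ℝ) : ℂ) * w + z * ((q - s : ℝ) : ℂ));
         0, 0, -(star z * ((q + s : ℝ) : ℂ) + ((p - r : ℝ) : ℂ) * star w),
          -(star z * w + ((p - r : ℝ) : ℂ) * ((q - s : ℝ) : ℂ))] := by
  ext i j
  fin_cases i <;> fin_cases j <;>
    simp [Matrix.mul_apply, Fin.sum_univ_four, iotaF, herX] <;> ring

theorem her_comm (p q r c d : ℝ) (z : ℂ) :
    iotaX (herX p (c * r) (c * z)) * iotaX (herX q (d * r) (d * z)) =
      iotaX (herX q (d * r) (d * z)) * iotaX (herX p (c * r) (c * z)) := by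
  rw [iotaX_apply, iotaX_apply, MC_mul, MC_mul]
  ext i j
  fin_cases i <;> fin_cases j <;> simp <;> ring

theorem her_TX (p r : ℝ) (z : ℂ) : TX (herX p r z) = herX p r z := by
  simp [TX_apply, herX]

theorem MC_act (t s : ℝ) (z : ℂ) : datX.act (t, s, z) (herX 1 0 0) =
    (0, 0, (Complex.I * s, z), (-star z, Complex.I * (4 * t - s))) := by
  rw [datX_act, prmX_apply, iotaX_apply, hatX_apply]
  simp [prmF, Matrix.mul_apply, Fin.sum_univ_four, iotaF, hatF, herX]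
  ring_nf
  simp

theorem ortho {x : Vx} (hT : TX x = x) (h : ∀ A, QX (datX.act A (herX 1 0 0)) x = 0) :
    ∃ (p r : ℝ) (z : ℂ), x = herX p r z := by
  obtain ⟨x1, w, ⟨a, b⟩, ⟨c, d⟩⟩ := x
  rw [TX_apply] at hT
  simp only [Prod.mk.injEq] at hT
  obtain ⟨h1, h2, -⟩ := hT
  have hx1 : x1 = 0 := by linarith
  have hw : w = 0 := by
    have : (2 : ℂ) * w = 0 := by linear_combination -h2
    simpa using this
  have e1 := h (1, 0, 0)
  have e2 := h (0, 1, 0)
  have e3 := h (0, 0, 1)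
  have e4 := h (0, 0, Complex.I)
  rw [MC_act] at e1 e2 e3 e4
  simp [QX] at e1 e2 e3 e4
  subst hx1 hw
  refine ⟨(a.re + d.re) / 2, (a.re - d.re) / 2, b, ?_⟩
  refine Prod.ext rfl (Prod.ext rfl (Prod.ext (Prod.ext ?_ rfl) (Prod.ext ?_ ?_)))
  · apply Complex.ext
    · simp [herX]; ring
    · simp [herX]; linarith
  · apply Complex.ext
    · simp [herX]; linarith
    · simp [herX]; linarith
  · apply Complex.ext
    · simp [herX]; ring
    · simp [herX]; linarith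

theorem her_scale (r : ℝ) (z : ℂ) :
    ∃ (c r0 : ℝ) (z0 : ℂ), (r0, z0) ≠ 0 ∧ r = c * r0 ∧ z = c * z0 := by
  by_cases h : r = 0 ∧ z = 0
  · refine ⟨0, 1, 0, ?_, ?_, ?_⟩
    · simp
    · simp [h.1]
    · simp [h.2]
  · refine ⟨1, r, z, ?_, by simp, by simp⟩
    intro h'
    apply h
    simpa using h'

end HX
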