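import Pool.Agent.HX.MB
import Pool.Agent.HX.MC
import Pool.Agent.HX.L1
import Pool.Agent.HX.L2
import Pool.Agent.HX.L3

/-! MODULE MD (diff 2-3): no reversible positively curved norm.

`E = F²/2`, `ξ₀ = herX 1 0 0`, `ξ₀` commutes with every `herX p r z` (`her_comm` with `c = 0`... : use
`herX p r z = herX p (1*r) (1*z)`, `herX 1 0 0 = herX 1 (0*r) (0*z)`).
1. `x` with `DE(x) = QX ξ₀` (`QX_lin`, `legendre_surj`; the functional is nonzero).
2. `TX x = x`: `DE(TX x)(TX v) = DE(x) v = QX ξ₀ v = QX ξ₀ (TX v)` (`denergy_equiv`, `QX_TX`, `her_TX`), `TX`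
   surjective, so `DE(TX x) = DE(x)`, `legendre_inj`.
3. `0 = DE(x)(act A x) = QX ξ₀ (act A x) = -QX (act A ξ₀) x` (`hinv`, `act_skew`): `ortho` gives `x = herX p r z`.
4. `her_scale`: `(r, z) = c (r0, z0)`, `σ = herX 0 r0 z0 ≠ 0`, commutes with `x` and `ξ₀`.
5. `y` with `fund F x y v = QX σ v` for all `v` (`exists_repr`, `QX_lin`).
6. `TX y = y`: `fund F x (TX y) (TX v) = fund F (TX x) (TX y) (TX v) = fund F x y v = QX σ v = QX σ (TX v)`
   (`fund_equiv`), `fund_inj`.
7. `QX (act A ξ₀) y = -QX ξ₀ (act A y) = -DE(x)(act A y) = fund F x (act A x) y = fund F x y (act A x) =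
   QX σ (act A x) = 0` (`fund_act`, `fund_symm`, `QX_comm_act`): `y = herX p' r' z'` (`ortho`), commutes with `ξ₀`.
8. `fund F x x v = DE(x) v = QX ξ₀ v` (`fund_self`).  `x, y` are linearly independent: `s x + t y = 0` gives
   `s ξ₀ + t σ = 0` (`QX_inj`), so `s = 0` (coordinate `p`) and `t = 0`.
9. `flagK_nonpos` with `QX_comm`: h1: `QX ξ₀ (mm v x) = 0`; h2: `QX ξ₀ (mm v y) = 0`; h3: `QX σ (mm v x) = 0`;
   h4: `QX σ (act _ x) = 0`.
-/

namespace HX

open HFinG HG
open scoped Matrix ContDiff Matrix.Norms.Operator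

theorem MD_TX_surj (v : Vx) : ∃ w, TX w = v := ⟨TX.symm v, TX.apply_symm_apply v⟩

theorem MD_xi_ne : herX 1 0 0 ≠ 0 := by
  intro h
  have h1 : ((1 + 0 : ℝ) : ℂ) = 0 := congrArg (fun t : Vx => t.2.2.1.1) h
  norm_num at h1

theorem MD_xi_comm (p r : ℝ) (z : ℂ) :
    iotaX (herX 1 0 0) * iotaX (herX p r z) = iotaX (herX p r z) * iotaX (herX 1 0 0) := by
  have h := her_comm 1 p r 0 1 z
  simpa using h

theorem not_posFlag {F : Vx → ℝ} (hF : IsMinkowski F) (hT : ∀ x, F (TX x) = F x)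
    (hinv : ∀ A x, x ≠ 0 → fderiv ℝ (fun z => F z ^ 2 / 2) x (datX.act A x) = 0) :
    ¬ PosFlag datX F := by
  intro hpos
  -- 1
  obtain ⟨ℓ, hℓ⟩ := QX_lin (herX 1 0 0)
  have hℓ0 : ℓ ≠ 0 := by
    intro h
    apply MD_xi_ne
    refine QX_inj fun v => ?_
    rw [← hℓ v, h]
    simp [QX]
  obtain ⟨x, hx, hxℓ⟩ := legendre_surj hF ℓ hℓ0
  have hDE : ∀ v, fderiv ℝ (fun z => F z ^ 2 / 2) x v = QX (herX 1 0 0) v := by
    intro v
    rw [hxℓ, hℓ]
  -- 2
  have hTx0 : TX x ≠ 0 := by
    intro h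
    exact hx (by simpa using h)
  have hTx : TX x = x := by
    refine legendre_inj hF hTx0 hx ?_
    refine ContinuousLinearMap.ext fun v => ?_
    obtain ⟨w, rfl⟩ := MD_TX_surj v
    rw [denergy_equiv hF TX hT hx w, hDE, hDE, ← QX_TX, her_TX]
  -- 3
  have hortho : ∀ A, QX (datX.act A (herX 1 0 0)) x = 0 := by
    intro A
    rw [act_skew, ← hDE, hinv A x hx, neg_zero]
  obtain ⟨p, r, z, hxe⟩ := ortho hTx hortho
  -- 4
  obtain ⟨c, r0, z0, h0, hr, hz⟩ := her_scale r z
  have hxc : iotaX (herX 0 r0 z0) * iotaX x = iotaX x * iotaX (herX 0 r0 z0) := by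
    have h := her_comm 0 p r0 1 c z0
    rw [hxe, hr, hz]
    simpa using h
  have hξx : iotaX (herX 1 0 0) * iotaX x = iotaX x * iotaX (herX 1 0 0) := by
    rw [hxe]
    exact MD_xi_comm p r z
  -- 5
  obtain ⟨ℓ', hℓ'⟩ := QX_lin (herX 0 r0 z0)
  obtain ⟨y, hy⟩ := exists_repr hF hx ℓ'.toLinearMap
  have hy' : ∀ v, fund F x y v = QX (herX 0 r0 z0) v := by
    intro v
    rw [hy v, ← hℓ' v]
    rfl
  -- 6
  have hTy : TX y = y := by
    refine fund_inj hF hx fun v => ?_
    obtain ⟨w, rfl⟩ := MD_TX_surj v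
    have h1 := fund_equiv hF TX hT hx y w
    rw [hTx] at h1
    rw [h1, hy', hy', ← QX_TX, her_TX]
  -- 7
  have hortho' : ∀ A, QX (datX.act A (herX 1 0 0)) y = 0 := by
    intro A
    rw [act_skew, ← hDE]
    have h1 := fund_act hF hinv hx A y
    rw [← h1, fund_symm hF hx, hy']
    exact QX_comm_act hxc A
  obtain ⟨p', r', z', hye⟩ := ortho hTy hortho'
  have hξy : iotaX (herX 1 0 0) * iotaX y = iotaX y * iotaX (herX 1 0 0) := by
    rw [hye]
    exact MD_xi_comm p' r' z'
  -- 8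
  have hfx : ∀ v, fund F x x v = QX (herX 1 0 0) v := by
    intro v
    rw [fund_self hF hx, hDE]
  have hli : LinearIndependent ℝ ![x, y] := by
    rw [LinearIndependent.pair_iff]
    intro s t hst
    have h1 : s • herX 1 0 0 + t • herX 0 r0 z0 = 0 := by
      refine QX_inj fun v => ?_
      have h2 : fund F x (s • x + t • y) v = 0 := by
        rw [hst]
        simp
      have h3 : fund F x (s • x + t • y) v = s * QX (herX 1 0 0) v + t * QX (herX 0 r0 z0) v := by
        rw [map_add, map_smul, map_smul, _root_.add_apply, _root_.smul_apply, _root_.smul_apply,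
          hfx, hy', smul_eq_mul, smul_eq_mul]
      have h4 : QX (s • herX 1 0 0 + t • herX 0 r0 z0) v
          = s * QX (herX 1 0 0) v + t * QX (herX 0 r0 z0) v := by
        simp only [QX, Complex.star_def, Complex.mul_re, Complex.conj_re, Complex.conj_im,
          Prod.fst_add, Prod.snd_add, Prod.smul_fst, Prod.smul_snd, Complex.add_re, Complex.add_im,
          Complex.smul_re, Complex.smul_im, smul_eq_mul]
        ring
      have h5 : QX (0 : Vx) v = 0 := by simp [QX]
      rw [h4, ← h3, h2, h5]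
    have e11 : s * (1 + 0 : ℝ) + t * (0 + r0) = 0 := by
      have := congrArg (fun u : Vx => u.2.2.1.1.re) h1
      simpa [herX] using this
    have e22 : s * (1 - 0 : ℝ) + t * (0 - r0) = 0 := by
      have := congrArg (fun u : Vx => u.2.2.2.2.re) h1
      simpa [herX] using this
    have e12 : (t : ℂ) * z0 = 0 := by
      have := congrArg (fun u : Vx => u.2.2.1.2) h1
      simpa [herX] using this
    have hs : s = 0 := by linarith
    refine ⟨hs, ?_⟩
    by_contra ht
    apply h0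
    have hr0 : t * r0 = 0 := by
      rw [hs] at e11
      linarith
    rcases mul_eq_zero.1 hr0 with h | h
    · exact absurd h ht
    · rcases mul_eq_zero.1 e12 with h' | h'
      · exact absurd (by exact_mod_cast h') ht
      · rw [h, h']
        rfl
  -- 9
  refine flagK_nonpos hF hli ?_ ?_ ?_ ?_ (hpos x y hli)
  · intro v
    rw [hfx]
    exact QX_comm hξx v
  · intro v
    rw [hfx]
    exact QX_comm hξy v
  · intro v
    rw [hy']
    exact QX_comm hxc v
  · rw [hy']
    exact QX_comm_act hxc _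

end HX
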