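import Pool.Agent.HG.Defs

/-! The model: `𝔤 = 𝔰𝔲(4)`, `𝔥 = 𝔰𝔲(2) ⊕ ℝ diag(i, i, i, -3i)`. -/

namespace HX

open HFinG HG
open scoped Matrix ContDiff Matrix.Norms.Operator

/-- `4 × 4` complex matrices. -/
abbrev M4 := Matrix (Fin 4) (Fin 4) ℂ

/-- coordinates of `𝔪`: `(a, w, (x11, x12), (x21, x22))` -/
abbrev Vx := ℝ × ℂ × (ℂ × ℂ) × (ℂ × ℂ)

/-- coordinates of `𝔥`: `(t, s, z)` -/
abbrev Hx := ℝ × ℝ × ℂ

/-- The matrix of `(a, w, X)`. -/
def iotaF (x : Vx) : M4 :=
  !![Complex.I * x.1, 0, x.2.2.1.1, x.2.2.1.2;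
     0, Complex.I * x.1, x.2.2.2.1, x.2.2.2.2;
     -star x.2.2.1.1, -star x.2.2.2.1, -2 * Complex.I * x.1, x.2.1;
     -star x.2.2.1.2, -star x.2.2.2.2, -star x.2.1, 0]

/-- The matrix of `(t, s, z)`. -/
def hatF (A : Hx) : M4 :=
  !![Complex.I * (A.1 + A.2.1), A.2.2, 0, 0;
     -star A.2.2, Complex.I * (A.1 - A.2.1), 0, 0;
     0, 0, Complex.I * A.1, 0;
     0, 0, 0, -3 * Complex.I * A.1]

/-- The `𝔪`-coordinates of a matrix. -/
noncomputable def prmF (S : M4) : Vx :=
  (-(S 3 3).im / 6 - (S 2 2).im / 2, S 2 3, (S 0 2, S 0 3), (S 1 2, S 1 3))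

/-- The `𝔥`-coordinates of a matrix. -/
noncomputable def prhF (S : M4) : Hx :=
  (-(S 3 3).im / 3, ((S 0 0).im - (S 1 1).im) / 2, S 0 1)

/-- `iota` as a continuous linear map -/
noncomputable def iotaX : Vx →L[ℝ] M4 :=
  LinearMap.toContinuousLinearMap
    { toFun := iotaF
      map_add' := by
        intro x y
        ext i j
        fin_cases i <;> fin_cases j <;> simp [iotaF, mul_add] <;> ring
      map_smul' := by
        intro c x
        ext i j
        fin_cases i <;> fin_cases j <;> simp [iotaF] <;> ring }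

lemma iotaX_apply (x : Vx) : iotaX x = iotaF x := rfl

/-- `hat` as a continuous linear map -/
noncomputable def hatX : Hx →L[ℝ] M4 :=
  LinearMap.toContinuousLinearMap
    { toFun := hatF
      map_add' := by
        intro x y
        ext i j
        fin_cases i <;> fin_cases j <;> simp [hatF] <;> ring
      map_smul' := by
        intro c x
        ext i j
        fin_cases i <;> fin_cases j <;> simp [hatF] <;> ring }

lemma hatX_apply (x : Hx) : hatX x = hatF x := rfl

/-- `prm` as a continuous linear map -/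
noncomputable def prmX : M4 →L[ℝ] Vx :=
  LinearMap.toContinuousLinearMap
    { toFun := prmF
      map_add' := by
        intro S T
        simp only [prmF, Matrix.add_apply, Complex.add_im, Prod.mk_add_mk]
        refine Prod.ext ?_ rfl
        ring
      map_smul' := by
        intro c S
        simp only [prmF, Matrix.smul_apply, Complex.smul_im, smul_eq_mul, RingHom.id_apply,
          Prod.smul_mk]
        refine Prod.ext ?_ rfl
        simp only
        ring }

lemma prmX_apply (S : M4) : prmX S = prmF S := rfl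

/-- `prh` as a continuous linear map -/
noncomputable def prhX : M4 →L[ℝ] Hx :=
  LinearMap.toContinuousLinearMap
    { toFun := prhF
      map_add' := by
        intro S T
        simp only [prhF, Matrix.add_apply, Complex.add_im, Prod.mk_add_mk]
        refine Prod.ext ?_ (Prod.ext ?_ rfl) <;> ring
      map_smul' := by
        intro c S
        simp only [prhF, Matrix.smul_apply, Complex.smul_im, smul_eq_mul, RingHom.id_apply,
          Prod.smul_mk]
        refine Prod.ext ?_ (Prod.ext ?_ rfl) <;> simp only <;> ring }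

lemma prhX_apply (S : M4) : prhX S = prhF S := rfl

/-- make a bilinear map continuous -/
noncomputable def toCB {V W Z : Type*} [NormedAddCommGroup V] [NormedSpace ℝ V]
    [FiniteDimensional ℝ V] [NormedAddCommGroup W] [NormedSpace ℝ W] [FiniteDimensional ℝ W]
    [NormedAddCommGroup Z] [NormedSpace ℝ Z]
    (f : V →ₗ[ℝ] W →ₗ[ℝ] Z) : V →L[ℝ] W →L[ℝ] Z :=
  LinearMap.toContinuousLinearMap
    ((LinearMap.toContinuousLinearMap : (W →ₗ[ℝ] Z) ≃ₗ[ℝ] (W →L[ℝ] Z)).toLinearMap ∘ₗ f)

/-- The commutator as a continuous bilinear map. -/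
noncomputable def brX : M4 →L[ℝ] M4 →L[ℝ] M4 :=
  ContinuousLinearMap.mul ℝ M4 - (ContinuousLinearMap.mul ℝ M4).flip

lemma brX_apply (S T : M4) : brX S T = S * T - T * S := rfl

/-- `(x, y) ↦ p [f x, g y]` -/
noncomputable def compBr {U V Z : Type*} [NormedAddCommGroup U] [NormedSpace ℝ U]
    [NormedAddCommGroup V] [NormedSpace ℝ V] [NormedAddCommGroup Z] [NormedSpace ℝ Z]
    (p : M4 →L[ℝ] Z) (f : U →L[ℝ] M4) (g : V →L[ℝ] M4) : U →L[ℝ] V →L[ℝ] Z :=
  ((ContinuousLinearMap.compL ℝ V M4 Z p).comp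
    (((ContinuousLinearMap.compL ℝ V M4 M4).flip g).comp brX)).comp f

lemma compBr_apply {U V Z : Type*} [NormedAddCommGroup U] [NormedSpace ℝ U]
    [NormedAddCommGroup V] [NormedSpace ℝ V] [NormedAddCommGroup Z] [NormedSpace ℝ Z]
    (p : M4 →L[ℝ] Z) (f : U →L[ℝ] M4) (g : V →L[ℝ] M4) (x : U) (y : V) :
    compBr p f g x y = p (f x * g y - g y * f x) := rfl

/-- The bracket data of `SU(4)/SU(2)S¹`. -/
noncomputable def datX : RedData Vx Hx where
  mm := compBr prmX iotaX iotaX
  mh := compBr prhX iotaX iotaX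
  act := compBr prmX hatX iotaX
  mm_self := by
    intro x
    rw [compBr_apply, sub_self, map_zero]
  mh_self := by
    intro x
    rw [compBr_apply, sub_self, map_zero]

lemma datX_mm (x y : Vx) : datX.mm x y = prmX (iotaX x * iotaX y - iotaX y * iotaX x) := rfl
lemma datX_mh (x y : Vx) : datX.mh x y = prhX (iotaX x * iotaX y - iotaX y * iotaX x) := rfl
lemma datX_act (A : Hx) (x : Vx) : datX.act A x = prmX (hatX A * iotaX x - iotaX x * hatX A) := rfl

/-- The invariant quadratic form `-½ tr` in coordinates. -/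
noncomputable def QX (x y : Vx) : ℝ :=
  3 * x.1 * y.1 + (star x.2.1 * y.2.1).re + (star x.2.2.1.1 * y.2.2.1.1).re
    + (star x.2.2.1.2 * y.2.2.1.2).re + (star x.2.2.2.1 * y.2.2.2.1).re
    + (star x.2.2.2.2 * y.2.2.2.2).re

/-- The element `(0, 0, X)` with `X = (p + r, z; z̄, p - r)` Hermitian. -/
noncomputable def herX (p r : ℝ) (z : ℂ) : Vx := (0, 0, ((p + r : ℝ), z), (star z, (p - r : ℝ)))

/-- The isotropy reflection `Ad diag(-1,-1,1,1)` composed with `-1`. -/
noncomputable def TX : Vx ≃L[ℝ] Vx :=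
  ContinuousLinearEquiv.prodCongr (ContinuousLinearEquiv.neg ℝ)
    (ContinuousLinearEquiv.prodCongr (ContinuousLinearEquiv.neg ℝ)
      (ContinuousLinearEquiv.refl ℝ ((ℂ × ℂ) × (ℂ × ℂ))))

lemma TX_apply (x : Vx) : TX x = (-x.1, -x.2.1, x.2.2) := rfl

end HX
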