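import Pool.Agent.HX.MA
import Pool.Agent.HX.Space

/-! MODULE RA (diff 2-3): the representation of `M₄(ℂ)` on `(ℂ⁴)^⊗4`.

* `act4_tens`: `g (u ⊗ u' ⊗ u'' ⊗ v) = gu ⊗ gu' ⊗ gu'' ⊗ gv` (`tens4`), product of sums.
* `act4_mul`, `act4_one`: both sides are linear in `t` and agree on the basis tensors
  `tens4 (Pi.single a 1) (Pi.single b 1) (Pi.single c 1) (Pi.single d 1)`, which span: every
  `t = ∑ t a b c d • (basis tensor)` (careful: `act4 g` is `ℂ`-homogeneous too; `act4_smulC`).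
* `act4_smooth`: `contDiff_clm_apply_iff`, `contDiff_pi`, sums and products of matrix entries
  (an entry is a (continuous) real-linear function of the matrix).
* `act4_fderiv`: derivative of `g ↦ act4 g (tens4 u u' u'' v) = tens4 (g u) (g u') (g u'') (g v)` at `1`.
-/

namespace HX

open HFinG HG
open scoped Matrix ContDiff Matrix.Norms.Operator

/-- `u ⊗ u' ⊗ u'' ⊗ v` -/
def tens4 (u u' u'' v : Fin 4 → ℂ) : W4 := fun i j k l => u i * u' j * u'' k * v l

theorem RA_prod (x y z w : Fin 4 → ℂ) :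
    (∑ a, ∑ b, ∑ c, ∑ d, x a * y b * z c * w d)
      = (∑ a, x a) * (∑ b, y b) * (∑ c, z c) * (∑ d, w d) := by
  simp only [← Finset.mul_sum, ← Finset.sum_mul]

theorem RA_prodType (f : Fin 4 → Fin 4 → Fin 4 → Fin 4 → ℂ) :
    (∑ a, ∑ b, ∑ c, ∑ d, f a b c d)
      = ∑ x : Fin 4 × Fin 4 × Fin 4 × Fin 4, f x.1 x.2.1 x.2.2.1 x.2.2.2 := by
  simp only [Fintype.sum_prod_type]

theorem act4_tens (g : M4) (u u' u'' v : Fin 4 → ℂ) :
    act4 g (tens4 u u' u'' v) = tens4 (g *ᵥ u) (g *ᵥ u') (g *ᵥ u'') (g *ᵥ v) := by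
  funext i j k l
  rw [act4_apply]
  have h := RA_prod (fun a => g i a * u a) (fun b => g j b * u' b) (fun c => g k c * u'' c)
    (fun d => g l d * v d)
  simp only [tens4, Matrix.mulVec, dotProduct]
  rw [← h]
  refine Finset.sum_congr rfl fun a _ => Finset.sum_congr rfl fun b _ =>
    Finset.sum_congr rfl fun c _ => Finset.sum_congr rfl fun d _ => ?_
  ring

theorem act4_one : act4 1 = 1 := by
  ext t i j k l
  rw [act4_apply]
  simp [Matrix.one_apply]

theorem act4_mul (g h : M4) : act4 (g * h) = act4 g * act4 h := by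
  ext t i j k l
  show act4 (g * h) t i j k l = act4 g (act4 h t) i j k l
  rw [act4_apply, act4_apply]
  simp only [act4_apply]
  have e1 : ∀ a b c d : Fin 4, (g * h) i a * (g * h) j b * (g * h) k c * (g * h) l d * t a b c d
      = ∑ x : Fin 4 × Fin 4 × Fin 4 × Fin 4,
        g i x.1 * g j x.2.1 * g k x.2.2.1 * g l x.2.2.2
          * (h x.1 a * h x.2.1 b * h x.2.2.1 c * h x.2.2.2 d * t a b c d) := by
    intro a b c d
    simp only [Matrix.mul_apply]
    rw [← RA_prod, RA_prodType, Finset.sum_mul]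
    refine Finset.sum_congr rfl fun x _ => ?_
    ring
  have e2 : ∀ p q r s : Fin 4, g i p * g j q * g k r * g l s
      * (∑ a, ∑ b, ∑ c, ∑ d, h p a * h q b * h r c * h s d * t a b c d)
      = ∑ y : Fin 4 × Fin 4 × Fin 4 × Fin 4, g i p * g j q * g k r * g l s
          * (h p y.1 * h q y.2.1 * h r y.2.2.1 * h s y.2.2.2 * t y.1 y.2.1 y.2.2.1 y.2.2.2) := by
    intro p q r s
    rw [RA_prodType, Finset.mul_sum]
  simp only [e1, e2]
  rw [RA_prodType, RA_prodType, Finset.sum_comm]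

theorem RA_entry (i a : Fin 4) : ContDiff ℝ ∞ (fun g : M4 => g i a) :=
  (LinearMap.toContinuousLinearMap
    ({ toFun := fun g : M4 => g i a
       map_add' := fun _ _ => rfl
       map_smul' := fun _ _ => rfl } : M4 →ₗ[ℝ] ℂ)).contDiff

theorem act4_smooth : ContDiff ℝ ∞ (act4 : M4 → W4 →L[ℝ] W4) := by
  rw [contDiff_clm_apply_iff]
  intro t
  refine contDiff_pi.2 fun i => contDiff_pi.2 fun j => contDiff_pi.2 fun k =>
    contDiff_pi.2 fun l => ?_
  simp only [act4_apply]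
  refine ContDiff.sum fun a _ => ContDiff.sum fun b _ => ContDiff.sum fun c _ =>
    ContDiff.sum fun d _ => ?_
  exact ((((RA_entry i a).mul (RA_entry j b)).mul (RA_entry k c)).mul (RA_entry l d)).mul
    contDiff_const

theorem RA_line (x y : ℂ) : HasDerivAt (fun s : ℝ => x + (s : ℂ) * y) y 0 := by
  have h1 : HasDerivAt (fun s : ℝ => (s : ℂ)) 1 0 := Complex.ofRealCLM.hasDerivAt
  have h2 := (h1.mul_const y).const_add x
  rw [one_mul] at h2
  exact h2

theorem RA_line4 (x1 y1 x2 y2 x3 y3 x4 y4 : ℂ) :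
    HasDerivAt (fun s : ℝ => (x1 + (s : ℂ) * y1) * (x2 + (s : ℂ) * y2) * (x3 + (s : ℂ) * y3)
      * (x4 + (s : ℂ) * y4))
      (y1 * x2 * x3 * x4 + x1 * y2 * x3 * x4 + x1 * x2 * y3 * x4 + x1 * x2 * x3 * y4) 0 := by
  have hm := (((RA_line x1 y1).mul (RA_line x2 y2)).mul (RA_line x3 y3)).mul (RA_line x4 y4)
  refine HasDerivAt.congr_deriv hm ?_
  simp only [Pi.mul_apply, Complex.ofReal_zero, zero_mul, add_zero]
  ring

theorem act4_fderiv (X : M4) (u v : Fin 4 → ℂ) :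
    fderiv ℝ (act4 : M4 → W4 →L[ℝ] W4) 1 X (tens u v) =
      tens4 (X *ᵥ u) u u v + tens4 u (X *ᵥ u) u v + tens4 u u (X *ᵥ u) v + tens4 u u u (X *ᵥ v) := by
  have h1 : HasFDerivAt (act4 : M4 → W4 →L[ℝ] W4) (fderiv ℝ (act4 : M4 → W4 →L[ℝ] W4) 1) 1 :=
    (act4_smooth.differentiable (by simp) 1).hasFDerivAt
  have h2 : HasFDerivAt (fun g : M4 => act4 g (tens u v))
      ((ContinuousLinearMap.apply ℝ W4 (tens u v)).comp
        (fderiv ℝ (act4 : M4 → W4 →L[ℝ] W4) 1)) 1 :=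
    (ContinuousLinearMap.apply ℝ W4 (tens u v)).hasFDerivAt.comp 1 h1
  have h3 : HasDerivAt (fun s : ℝ => (1 : M4) + s • X) X 0 := by
    have h := ((hasDerivAt_id (0:ℝ)).smul_const X).const_add (1 : M4)
    rw [one_smul] at h
    exact h
  have h2' : HasFDerivAt (fun g : M4 => act4 g (tens u v))
      ((ContinuousLinearMap.apply ℝ W4 (tens u v)).comp
        (fderiv ℝ (act4 : M4 → W4 →L[ℝ] W4) 1)) ((fun s : ℝ => (1 : M4) + s • X) 0) := by
    have e : (fun s : ℝ => (1 : M4) + s • X) 0 = 1 := by simp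
    rw [e]
    exact h2
  have h4 := h2'.comp_hasDerivAt (0:ℝ) h3
  have h5 : HasDerivAt ((fun g : M4 => act4 g (tens u v)) ∘ fun s : ℝ => (1 : M4) + s • X)
      (tens4 (X *ᵥ u) u u v + tens4 u (X *ᵥ u) u v + tens4 u u (X *ᵥ u) v
        + tens4 u u u (X *ᵥ v)) 0 := by
    have e : ((fun g : M4 => act4 g (tens u v)) ∘ fun s : ℝ => (1 : M4) + s • X)
        = fun s : ℝ => fun i j k l => (u i + (s : ℂ) * (X *ᵥ u) i) * (u j + (s : ℂ) * (X *ᵥ u) j)
          * (u k + (s : ℂ) * (X *ᵥ u) k) * (v l + (s : ℂ) * (X *ᵥ v) l) := by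
      funext s
      have hv : ∀ w : Fin 4 → ℂ, ((1 : M4) + s • X) *ᵥ w = fun i => w i + (s : ℂ) * (X *ᵥ w) i := by
        intro w
        rw [Matrix.add_mulVec, Matrix.one_mulVec, Matrix.smul_mulVec]
        funext i
        simp
      show act4 ((1 : M4) + s • X) (tens4 u u u v) = _
      rw [act4_tens, hv u, hv v]
      rfl
    rw [e, hasDerivAt_pi]
    intro i
    rw [hasDerivAt_pi]
    intro j
    rw [hasDerivAt_pi]
    intro k
    rw [hasDerivAt_pi]
    intro l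
    exact RA_line4 (u i) ((X *ᵥ u) i) (u j) ((X *ᵥ u) j) (u k) ((X *ᵥ u) k) (v l) ((X *ᵥ v) l)
  exact h4.unique h5

end HX
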