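import Pool.Agent.HX.Final

/-! The statement in short form. -/

namespace HX

open HFinG

/-- `SU(4)`. -/
def SU4 : Set (Matrix (Fin 4) (Fin 4) ℂ) := {g | g ∈ Matrix.specialUnitaryGroup (Fin 4) ℂ}

/-- The subgroup `{diag(B, z, z⁻³) : |z| = 1, B ∈ U(2), det B = z²}` of `SU(4)`, which is
`SU(2)_(1,2) · {diag(z, z, z, z⁻³)}` (the coordinates are numbered `0, 1, 2, 3`). -/
def Iso4 : Set (Matrix (Fin 4) (Fin 4) ℂ) :=
  {g | g ∈ SU4 ∧ ∃ z : ℂ, ‖z‖ = 1 ∧ (∀ i, g i 2 = if i = 2 then z else 0) ∧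
    (∀ i, g i 3 = if i = 3 then (z ^ 3)⁻¹ else 0)}

/-- The local parametrizations `V ⊇ U → Ms` cover `Ms`. -/
def Covered (V : Type*) [NormedAddCommGroup V] [NormedSpace ℝ V] {W : Type*}
    [NormedAddCommGroup W] [NormedSpace ℝ W] (Ms : Set W) : Prop :=
  ∀ z ∈ Ms, ∃ (U : Set V) (ψ : V → W), IsParam Ms U ψ ∧ z ∈ ψ '' U

/-- `ℝ¹¹`. -/
abbrev E11 := EuclideanSpace ℝ (Fin 11)

/-- `F` is a reversible `SU(4)`-invariant Finsler metric on `Space4`. -/
structure IsHomRev (F : W4 → W4 → ℝ) : Prop where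
  finsler : IsFinslerOn E11 Space4 F
  inv : ∀ g ∈ SU4, InvariantUnder E11 Space4 F (act4F g)
  rev : ReversibleOn E11 Space4 F

theorem finrank_E11 : Module.finrank ℝ E11 = 11 := by
  rw [finrank_euclideanSpace, Fintype.card_fin]

theorem space4_orbit : Space4 = {t | ∃ g ∈ SU4, act4F g w04 = t} := by
  ext t
  constructor
  · intro ht
    exact su_trans ht
  · rintro ⟨g, hg, rfl⟩
    exact su_mem hg base_mem

theorem space4_iso : {g | g ∈ SU4 ∧ act4F g w04 = w04} = Iso4 := by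
  ext g
  constructor
  · rintro ⟨hg, h⟩
    exact ⟨hg, (su_stab hg).1 h⟩
  · rintro ⟨hg, h⟩
    exact ⟨hg, (su_stab hg).2 h⟩

theorem space4_covered : Covered E11 Space4 := fun _ ht => space4_param finrank_E11 ht

theorem space4_not (F : W4 → W4 → ℝ) (hF : IsHomRev F) : ¬ PosFlagOn E11 Space4 F :=
  su4_no_reversible finrank_E11 hF.finsler hF.inv hF.rev

end HX
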